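import Pool.Agent.W_448ev_h61.EvK

/-! First order values of local words (kernel evaluation). -/

namespace Pool.Agent.GaussPoset.Win.Ev

set_option maxRecDepth 100000

theorem e4_OC_OO_CO_OO : goodE [0, 0, 0, 0, 0, 0, 1, 1] [0, 0, 0, 1, 1, 2, 3, 4] 8 3 1 4 1 = true := by decide +kernel

theorem e4_OC_CO_CO_OO : goodE [0, 0, 0, 0, 0, 1, 2, 2] [0, 0, 0, 1, 1, 2, 3, 4] 8 3 1 4 1 = true := by decide +kernel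

theorem e4_OC_OO_CO_OC : goodE [0, 0, 0, 0, 0, 0, 0, 1, 1] [0, 0, 0, 0, 1, 1, 2, 3, 3] 9 4 1 4 (-1) = true := by decide +kernel

theorem e4_OC_CO_CO_OC : goodE [0, 0, 0, 0, 0, 0, 1, 2, 2] [0, 0, 0, 0, 1, 1, 2, 3, 3] 9 4 1 4 (-1) = true := by decide +kernel

theorem e5_OC_CO_CO_OO_CO : goodE [0, 0, 0, 0, 0, 0, 1, 2, 2, 3] [0, 0, 0, 0, 1, 1, 2, 3, 4, 5] 10 4 1 5 1 = true := by decide +kernel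

theorem e5_OC_CO_CO_OO_CC : goodE [0, 0, 0, 0, 0, 0, 0, 1, 2, 2, 3] [0, 0, 0, 0, 0, 1, 1, 2, 3, 4, 4] 11 5 1 5 (-1) = true := by decide +kernel

theorem e6_OC_CO_CO_OO_CO_OO : goodE [0, 0, 0, 0, 0, 0, 0, 1, 2, 2, 3, 3] [0, 0, 0, 0, 0, 1, 1, 2, 3, 4, 5, 6] 12 5 1 6 1 = true := by decide +kernel

theorem e6_OC_CO_CO_OO_CO_OC : goodE [0, 0, 0, 0, 0, 0, 0, 0, 1, 2, 2, 3, 3] [0, 0, 0, 0, 0, 0, 1, 1, 2, 3, 4, 5, 5] 13 6 1 6 (-1) = true := by decide +kernel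

theorem e7_OC_CO_CO_OO_CO_OO_OO : goodE [0, 0, 0, 0, 0, 0, 0, 0, 1, 2, 2, 3, 3, 3] [0, 0, 0, 0, 0, 0, 1, 1, 2, 3, 4, 5, 6, 7] 14 6 1 7 1 = true := by decide +kernel

theorem e7_OC_CO_CO_OO_CO_OO_OC : goodE [0, 0, 0, 0, 0, 0, 0, 0, 0, 1, 2, 2, 3, 3, 3] [0, 0, 0, 0, 0, 0, 0, 1, 1, 2, 3, 4, 5, 6, 6] 15 7 1 7 (-1) = true := by decide +kernel

theorem bad7_OC_CO_CO_OC_CC_OC_OC_OC : goodE [0, 0, 1, 2, 2, 3, 3, 3, 3] [1, 1, 2, 3, 3, 3, 3, 3, 3] 9 4 1 4 1 = true := by decide +kernel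

theorem bad7_OC_CO_CO_OC_CC_OC_OC_OO : goodE [0, 0, 1, 2, 2, 3, 3, 3, 3] [1, 1, 2, 3, 3, 3, 3, 3, 4] 9 4 1 4 2 = true := by decide +kernel

theorem bad7_OC_CO_CO_OO_CC_OC_OC_OO : goodE [0, 0, 1, 2, 2, 3, 3, 3, 3] [1, 1, 2, 3, 4, 4, 4, 4, 5] 9 4 2 4 1 = true := by decide +kernel

theorem bad11_OC_CO_CO_OO_CC_OC_OC_CO_CC_OC_OC_OO : goodE [0, 1, 1, 1, 2, 3, 3, 3, 3] [2, 2, 2, 2, 3, 3, 3, 3, 4] 9 4 1 4 1 = true := by decide +kernel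

theorem bad11_OC_CO_CO_OO_CC_OC_OC_CO_CC_OC_OC_OC_OC : goodE [0, 0, 1, 1, 1, 2, 3, 3, 3, 3, 3] [1, 2, 2, 2, 2, 3, 3, 3, 3, 3, 3] 11 5 1 5 1 = true := by decide +kernel

theorem bad11_OC_CO_CO_OO_CC_OC_OC_CO_CC_OC_OC_OC_OO : goodE [0, 0, 1, 1, 1, 2, 3, 3, 3, 3, 3] [1, 2, 2, 2, 2, 3, 3, 3, 3, 3, 4] 11 5 1 5 2 = true := by decide +kernel

end Pool.Agent.GaussPoset.Win.Ev
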