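import Pool.Agent.W_448ev_h61.EvG

/-!
# Verified evaluator, part H: sums with labels `≥ 1` on a set of the last row
-/

namespace Pool.Agent.GaussPoset.Win.Ev

set_option linter.unusedSectionVars false

open Finset

/-- bottom row and everything above it, down from the sites (`n` rows) -/
def coneN (lo hi : List ℕ) (s : ℕ) : ℕ → List ℕ → List ℕ
  | 0, _ => []
  | n + 1, l => l ++ coneN lo hi s n
      ((l.flatMap (fun y => upN lo hi (y / 32) (y % 32))).filter (fun y => Nat.ble (s + 1) (y / 32)))

/-- lower bound -/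
def lbf (K : List ℕ) (x : ℕ) : ℕ := bif K.contains x then 1 else 0

/-- lower part from row `r` (assigned) to row `r + n`, then `q`; no jumps -/
def lowX (lo hi : List ℕ) (R : ℕ) (K : List ℕ) (q : Prog) : ℕ → ℕ → Prog
  | r, 0 => chkL lo hi R r q
  | r, n + 1 =>
    (rowN lo hi (r + 1)).foldr (fun a p => Prog.asg (cd (r + 1) a) (lbf K (cd (r + 1) a))
      ((upN lo hi (r + 1) a).map (fun y => (y, upN lo hi (y / 32) (y % 32)))) p)
      (chkL lo hi R r (lowX lo hi R K q (r + 1) n))

/-- near part with lower bounds -/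
def nearX (lo hi : List ℕ) (R s : ℕ) (K : List ℕ) (q : Prog) : List ℕ → List ℕ → Prog
  | _, [] => q
  | done, a :: t =>
    let nb := (dnN lo hi R s a ++ upN lo hi s a).filter (fun y => !(done.contains y))
    Prog.asg (cd s a) 0 [] (nb.foldr (fun y p => Prog.asg y (lbf K y) [] p)
      (Prog.site (cd s a) (dnN lo hi R s a) (upN lo hi s a) (nearX lo hi R s K q (nb ++ done) t)))

/-- program with lower bound 1 on the elements above `X` (codes of the last row) -/
def mkX (lo hi : List ℕ) (R s : ℕ) (X : List ℕ) : Prog :=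
  let K := coneN lo hi s (R - 1 - s) X
  nearX lo hi R s K (lowX lo hi R K (uppP lo hi R Prog.nil (s - 1)) (s + 1) (R - s - 2)) []
    (rowN lo hi s)

/-- elements with lower bound 1 -/
def lbL : Prog → List ℕ
  | Prog.nil => []
  | Prog.asg x lb _ p => bif Nat.beq lb 0 then lbL p else x :: lbL p
  | Prog.site _ _ _ p => lbL p
  | Prog.low _ _ _ p => lbL p
  | Prog.upp _ _ _ p => lbL p
  | Prog.skp _ _ _ p => lbL p

/-- all lower bounds are at most 1 -/
def lb1 : Prog → Bool
  | Prog.nil => true
  | Prog.asg _ lb _ p => Nat.ble lb 1 && lb1 p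
  | Prog.site _ _ _ p => lb1 p
  | Prog.low _ _ _ p => lb1 p
  | Prog.upp _ _ _ p => lb1 p
  | Prog.skp _ _ _ p => lb1 p

lemma lbs_iff : ∀ (p : Prog) {M : ℕ → ℕ}, lb1 p = true → (lbs p M ↔ ∀ c ∈ lbL p, 1 ≤ M c) := by
  intro p
  induction p with
  | nil => intro M _; exact ⟨fun _ c hc => absurd hc (by simp [lbL]), fun _ => trivial⟩
  | asg x lb caps p ih =>
    intro M h
    simp only [lb1, Bool.and_eq_true] at h
    have hle := Nat.le_of_ble_eq_true h.1
    rw [lbs_asg, ih h.2, lbL]
    cases hb : Nat.beq lb 0 with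
    | true =>
      have := Nat.eq_of_beq_eq_true hb
      rw [cond_true, this]
      exact ⟨fun h => h.2, fun h => ⟨Nat.zero_le _, h⟩⟩
    | false =>
      have h1 := Nat.ne_of_beq_eq_false hb
      have h2 : lb = 1 := by omega
      rw [cond_false, h2]
      constructor
      · rintro ⟨h3, h4⟩ c hc
        rcases List.mem_cons.1 hc with rfl | h5
        · exact h3
        · exact h4 c h5
      · intro h3
        exact ⟨h3 x (by simp), fun c hc => h3 c (List.mem_cons_of_mem _ hc)⟩
  | site x dl ul p ih => intro M h; exact ih h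
  | low x o inn p ih => intro M h; exact ih h
  | upp x o inn p ih => intro M h; exact ih h
  | skp xs k q p _ ih => intro M h; exact ih h

/-- the check for one set `X` and all energies `< N` -/
noncomputable def okX (lo hi : List ℕ) (R s m N : ℕ) (X : List ℕ) : Bool :=
  okP lo hi R s (mkX lo hi R s X) && lb1 (mkX lo hi R s X) &&
  (lbL (mkX lo hi R s X)).all (fun c => (coneN lo hi s (R - 1 - s) X).contains c) &&
  X.all (fun c => (lbL (mkX lo hi R s X)).contains c) &&
  (List.range N).all (fun n => decide (ev m (mkX lo hi R s X) 0 n 0 0 0 = 0))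

/-- the check for all nonempty sets `X` of the last row and all energies `< N` -/
noncomputable def okXs (lo hi : List ℕ) (R s m N : ℕ) : Bool :=
  (((rowN lo hi (R - 1)).map (cd (R - 1))).sublists).all
    (fun X => X.isEmpty || okX lo hi R s m N X)

universe u

variable {P : Type u} [Fintype P] [PartialOrder P] [DecidableEq P] {r i j : ℕ}
variable {C : Finset P} {t : P} {lo hi : ℕ → ℕ} {x : ℕ → ℕ → P}

section loc

variable {base c0 R s : ℕ} {los his : List ℕ}

/-- the levels of `C` down to the last row -/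
noncomputable def DR (C : Finset P) (J : ℕ) : Finset P := by
  classical
  exact C.filter (fun z => lev z ≤ J)

lemma mem_DR {J : ℕ} {z : P} : z ∈ DR C J ↔ z ∈ C ∧ lev z ≤ J := by
  classical
  unfold DR
  rw [mem_filter]

/-- restriction of a sum to the rows -/
theorem Loc.sum_rows (Lc : Loc P r j t lo hi x C i base c0 R s los his) {n : ℕ} {D : Finset P}
    (hDC : D ⊆ C) (hSD : SR t base R ⊆ D) (htop : base = 0 ∨ n ≤ s)
    (hbot : s + n < R ∨ ∀ z ∈ D, lev z < base + R) (Q : (P → ℕ) → Prop) :
    (∑ e ∈ D.piAntidiag n, (by classical exact if Q e then tC i C e else 0) : A) =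
      ∑ e ∈ (SR t base R).piAntidiag n, (by classical exact if Q e then tC i C e else 0) := by
  classical
  have hsub : (SR t base R).piAntidiag n ⊆ D.piAntidiag n := by
    intro e he
    rw [mem_piAntidiag] at he ⊢
    refine ⟨?_, fun z hz => hSD (he.2 z hz)⟩
    rw [← he.1]
    symm
    refine sum_subset hSD fun z _ hz => ?_
    by_contra h
    exact hz (he.2 z h)
  symm
  refine sum_subset hsub ?_
  intro e he hes
  split_ifs with hQ
  · by_contra hne
    apply hes
    rw [mem_piAntidiag] at he ⊢
    have hsum : ∑ y, e y = n := by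
      rw [← he.1]
      symm
      refine sum_subset (subset_univ _) fun z _ hz => ?_
      by_contra h
      exact hz (he.2 z h)
    have hin : ∀ z, e z ≠ 0 → z ∈ SR t base R := by
      intro z hz
      have hzD := he.2 z hz
      have hi' := Lc.hi'
      have h1 : base ≤ lev z := by
        by_contra h
        rcases htop with h2 | h2
        · omega
        · exact hz (far_zero Lc.h.H Lc.hir hne hsum.le (Or.inr (by omega)))
      have h2 : lev z < base + R := by
        rcases hbot with h3 | h3
        · by_contra h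
          exact hz (far_zero Lc.h.H Lc.hir hne hsum.le (Or.inl (by omega)))
        · exact h3 z hzD
      rw [mem_SR]
      exact ⟨(Lc.mem z h2).1 (hDC hzD), h1, h2⟩
    refine ⟨?_, hin⟩
    rw [← he.1]
    refine sum_subset hSD fun z _ hz => ?_
    by_contra h
    exact hz (hin z h)
  · rfl

lemma Loc.SR_sub_DR (Lc : Loc P r j t lo hi x C i base c0 R s los his) {J : ℕ}
    (hJ : base + R ≤ J + 1) : SR t base R ⊆ DR C J := by
  intro z hz
  rw [mem_SR] at hz
  rw [mem_DR]
  exact ⟨(Lc.mem z hz.2.2).2 hz.1, by omega⟩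

/-- EVALUATION OF THE CUT COMPONENT. -/
theorem Loc.eval_cut (Lc : Loc P r j t lo hi x C i base c0 R s los his) {p : Prog}
    (hok : okP los his R s p = true) (h0 : lb0 p = true) {m n J : ℕ} (hm : m ≤ 2) (hn : n < 32)
    (htop : base = 0 ∨ n ≤ s) (hJ : base + R = J + 1) :
    PowerSeries.coeff m (∑ e ∈ (DR C J).piAntidiag n, tC i C e : A) = ev m p 0 n 0 0 0 := by
  classical
  rw [Lc.eval_lb hok hm hn]
  congr 1
  have h1 := Lc.sum_rows (D := DR C J) (n := n) (fun z hz => (mem_DR.1 hz).1)
    (Lc.SR_sub_DR hJ.le) htop (Or.inr (fun z hz => by have := (mem_DR.1 hz).2; omega)) (fun _ => True)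
  simp only [if_true] at h1
  rw [h1]
  refine Finset.sum_congr rfl fun e _ => ?_
  rw [if_pos (lbs_of_lb0 p h0)]

/-- elements of the cone are above an element of the list, and below the sites -/
lemma Loc.cone_spec (Lc : Loc P r j t lo hi x C i base c0 R s los his) {p : Prog}
    (hok : okP los his R s p = true) : ∀ (n : ℕ) (l : List ℕ),
    (∀ c ∈ l, inR los his R (c / 32) (c % 32) = true ∧ s < c / 32) →
    ∀ c ∈ coneN los his s n l, inR los his R (c / 32) (c % 32) = true ∧ s < c / 32 ∧
      ∃ d ∈ l, ptc x base c0 d ≤ ptc x base c0 c := by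
  classical
  intro n
  induction n with
  | zero => intro l _ c hc; exact absurd hc (by simp [coneN])
  | succ n ih =>
    intro l hl c hc
    rw [coneN, List.mem_append] at hc
    rcases hc with hc | hc
    · exact ⟨(hl c hc).1, (hl c hc).2, c, hc, le_rfl⟩
    · have hl' : ∀ c ∈ (l.flatMap (fun y => upN los his (y / 32) (y % 32))).filter
          (fun y => Nat.ble (s + 1) (y / 32)),
          inR los his R (c / 32) (c % 32) = true ∧ s < c / 32 ∧
            ∃ d ∈ l, ptc x base c0 d ≤ ptc x base c0 c := by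
        intro y hy
        rw [List.mem_filter, List.mem_flatMap] at hy
        obtain ⟨⟨d, hd, hy1⟩, hy2⟩ := hy
        have h1 := (Lc.nbU_upN hok (hl d hd).1).1 y hy1
        have h2 : inR los his R (y / 32) (y % 32) = true := by
          have h3 := h1.1
          rw [List.mem_toFinset] at h3
          unfold okP at hok
          simp only [Bool.and_eq_true] at hok
          obtain ⟨⟨⟨⟨⟨⟨⟨o1, o2⟩, o3⟩, o4⟩, o5⟩, o6⟩, o7⟩, o8⟩ := hok
          exact List.all_eq_true.1 o5 y h3
        rw [Nat.ble_eq] at hy2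
        exact ⟨h2, by omega, d, hd, h1.2.le⟩
      obtain ⟨h1, h2, d, hd, h3⟩ := ih _ (fun y hy => ⟨(hl' y hy).1, (hl' y hy).2.1⟩) c hc
      obtain ⟨_, _, d', hd', h4⟩ := hl' d hd
      exact ⟨h1, h2, d', hd', h4.trans h3⟩

/-- ZERO SUMS: the sum over all configurations with labels `≥ 1` on a nonempty set `X` of the last
row has no coefficient of `dd ^ m`. -/
theorem Loc.zeroX (Lc : Loc P r j t lo hi x C i base c0 R s los his) {m N J : ℕ} (hm : m ≤ 2)
    (hN : N ≤ 32) (htop : base = 0 ∨ N ≤ s + 1) (hJ : base + R = J + 1) (hsR : s + 1 < R)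
    (hok : okXs los his R s m N = true) {X : Finset P} (hX : ∀ z ∈ X, z ∈ C ∧ lev z = J)
    (hne : X.Nonempty) {n : ℕ} (hn : n < N) :
    PowerSeries.coeff m (∑ e ∈ (DR C J).piAntidiag n,
      (by classical exact if ∀ z ∈ X, 1 ≤ e z then tC i C e else 0) : A) = 0 := by
  classical
  set row : List ℕ := (rowN los his (R - 1)).map (cd (R - 1)) with hrow
  set l : List ℕ := row.filter (fun c => decide (ptc x base c0 c ∈ X)) with hl
  have hlX : okX los his R s m N l = true := by
    unfold okXs at hok
    have h1 := List.all_eq_true.1 hok l (List.mem_sublists.2 List.filter_sublist)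
    rw [Bool.or_eq_true] at h1
    rcases h1 with h1 | h1
    · exfalso
      obtain ⟨z, hz⟩ := hne
      obtain ⟨hzC, hzJ⟩ := hX z hz
      have hzt : z ≤ t := (Lc.mem z (by omega)).1 hzC
      obtain ⟨a, g1, g2, g3⟩ := Lc.hc.surj (lev z) (by have := Lc.hj; omega) z rfl hzt
      have e0 : lev z = base + (R - 1) := by omega
      rw [e0] at g1 g2 g3
      have e1 := Lc.rows.lo_eq (R - 1) (by omega)
      have e2 := Lc.rows.hi_eq (R - 1) (by omega)
      -- bound on the columns: from any valid program; use the whole row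
      have hb : his.getD (R - 1) 0 ≤ 30 := by
        have h2 := List.all_eq_true.1 hok row (List.mem_sublists.2 (List.Sublist.refl _))
        rw [Bool.or_eq_true] at h2
        rcases h2 with h2 | h2
        · rw [List.isEmpty_iff] at h2
          exfalso
          have : a - c0 ∈ rowN los his (R - 1) := mem_rowN.2 ⟨by omega, by omega⟩
          have h3 : cd (R - 1) (a - c0) ∈ row := List.mem_map.2 ⟨_, this, rfl⟩
          rw [h2] at h3
          exact absurd h3 (by simp)
        · unfold okX okP at h2
          simp only [Bool.and_eq_true] at h2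
          have h3 := h2.1.1.1.1.1.2
          have := List.all_eq_true.1 h3 _ (List.mem_range.2 (show R - 1 < R by omega))
          rwa [Nat.ble_eq] at this
      have h7 : a - c0 < 32 := by omega
      have hmem : cd (R - 1) (a - c0) ∈ l := by
        rw [hl, List.mem_filter]
        refine ⟨List.mem_map.2 ⟨_, mem_rowN.2 ⟨by omega, by omega⟩, rfl⟩, ?_⟩
        rw [decide_eq_true_eq]
        unfold ptc
        rw [cd_div h7, cd_mod h7]
        have e4 : c0 + (a - c0) = a := by omega
        rw [e4, g3]
        exact hz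
      rw [List.isEmpty_iff] at h1
      rw [h1] at hmem
      exact absurd hmem (by simp)
    · exact h1
  unfold okX at hlX
  simp only [Bool.and_eq_true] at hlX
  obtain ⟨⟨⟨⟨k1, k2⟩, k3⟩, k4⟩, k5⟩ := hlX
  have hev := of_decide_eq_true (List.all_eq_true.1 k5 n (List.mem_range.2 hn))
  have hmain := Lc.eval_lb k1 hm (n := n) (by omega)
  rw [hev] at hmain
  have hsum := Lc.sum_rows (D := DR C J) (n := n) (fun z hz => (mem_DR.1 hz).1)
    (Lc.SR_sub_DR hJ.le) (by rcases htop with h | h; exact Or.inl h; exact Or.inr (by omega))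
    (Or.inr (fun z hz => by have := (mem_DR.1 hz).2; omega)) (fun e => ∀ z ∈ X, 1 ≤ e z)
  have hsum' : (∑ e ∈ (DR C J).piAntidiag n, (if ∀ z ∈ X, 1 ≤ e z then tC i C e else 0) : A) =
      ∑ e ∈ (SR t base R).piAntidiag n, (if ∀ z ∈ X, 1 ≤ e z then tC i C e else 0) := by
    convert hsum
  rw [hsum', hmain]
  congr 1
  refine Finset.sum_congr rfl fun e he => ?_
  -- facts about the codes of `l`
  have k1' := k1
  unfold okP at k1'
  simp only [Bool.and_eq_true] at k1'
  obtain ⟨⟨⟨⟨⟨⟨⟨o1, o2⟩, o3⟩, o4⟩, o5⟩, o6⟩, o7⟩, o8⟩ := k1'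
  have hcol : his.getD (R - 1) 0 ≤ 30 := by
    have := List.all_eq_true.1 o7 _ (List.mem_range.2 (show R - 1 < R by omega))
    rwa [Nat.ble_eq] at this
  have hlin : ∀ c ∈ l, inR los his R (c / 32) (c % 32) = true ∧ s < c / 32 ∧ c / 32 = R - 1 := by
    intro c hc
    rw [hl, List.mem_filter] at hc
    obtain ⟨a, ha, rfl⟩ := List.mem_map.1 hc.1
    rw [mem_rowN] at ha
    rw [cd_div (by omega), cd_mod (by omega)]
    exact ⟨inR_iff.2 ⟨by omega, ha.1, ha.2⟩, by omega, rfl⟩
  have hcone := Lc.cone_spec k1 (R - 1 - s) l (fun c hc => ⟨(hlin c hc).1, (hlin c hc).2.1⟩)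
  have hXl : ∀ z ∈ X, ∃ c ∈ l, ptc x base c0 c = z := by
    intro z hz
    obtain ⟨hzC, hzJ⟩ := hX z hz
    have hzt : z ≤ t := (Lc.mem z (by omega)).1 hzC
    obtain ⟨a, g1, g2, g3⟩ := Lc.hc.surj (lev z) (by have := Lc.hj; omega) z rfl hzt
    have e0 : lev z = base + (R - 1) := by omega
    rw [e0] at g1 g2 g3
    have e1 := Lc.rows.lo_eq (R - 1) (by omega)
    have e2 := Lc.rows.hi_eq (R - 1) (by omega)
    have h7 : a - c0 < 32 := by omega
    have hpt : ptc x base c0 (cd (R - 1) (a - c0)) = z := by
      unfold ptc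
      rw [cd_div h7, cd_mod h7]
      have e4 : c0 + (a - c0) = a := by omega
      rw [e4, g3]
    refine ⟨cd (R - 1) (a - c0), ?_, hpt⟩
    rw [hl, List.mem_filter]
    refine ⟨List.mem_map.2 ⟨_, mem_rowN.2 ⟨by omega, by omega⟩, rfl⟩, ?_⟩
    rw [decide_eq_true_eq, hpt]
    exact hz
  have hlsub : ∀ c ∈ lbL (mkX los his R s l), c ∈ (asgs (mkX los his R s l)).toFinset ∧
      c ∈ coneN los his s (R - 1 - s) l := by
    intro c hc
    have h1 : c ∈ coneN los his s (R - 1 - s) l := List.contains_iff_mem.1 (List.all_eq_true.1 k3 c hc)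
    refine ⟨?_, h1⟩
    have : ∀ p : Prog, ∀ c ∈ lbL p, c ∈ asgs p := by
      intro p
      induction p with
      | nil => intro c hc; exact absurd hc (by simp [lbL])
      | asg x' lb caps p ih =>
        intro c hc
        rw [lbL] at hc
        rw [asgs]
        cases hb : Nat.beq lb 0 with
        | true => rw [hb, cond_true] at hc; exact List.mem_cons_of_mem _ (ih c hc)
        | false =>
          rw [hb, cond_false] at hc
          rcases List.mem_cons.1 hc with h | h
          · rw [h]; simp
          · exact List.mem_cons_of_mem _ (ih c h)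
      | site _ _ _ p ih => intro c hc; exact ih c hc
      | low _ _ _ p ih => intro c hc; exact ih c hc
      | upp _ _ _ p ih => intro c hc; exact ih c hc
      | skp _ _ _ p _ ih => intro c hc; exact ih c hc
    exact List.mem_toFinset.2 (this _ c hc)
  by_cases hT : tC i C e = 0
  · rw [hT, ite_self, ite_self]
  · have hA := (adm_of_tC hT).1
    have hiff : (∀ z ∈ X, 1 ≤ e z) ↔
        lbs (mkX los his R s l) (jM (ptc x base c0) (asgs (mkX los his R s l)).toFinset e) := by
      rw [lbs_iff _ k2]
      constructor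
      · intro h c hc
        obtain ⟨h1, h2⟩ := hlsub c hc
        rw [jM_of_mem h1]
        obtain ⟨h3, h4, d, hd, h5⟩ := hcone c h2
        have hdX : ptc x base c0 d ∈ X := by
          rw [hl, List.mem_filter] at hd
          exact of_decide_eq_true hd.2
        have h6 := (Lc.pt_spec h3).1
        have hi' := Lc.hi'
        exact pos_above Lc.h.H hA (by omega) _ h5 (h _ hdX)
      · intro h z hz
        obtain ⟨c, hc, rfl⟩ := hXl z hz
        have h1 : c ∈ lbL (mkX los his R s l) :=
          List.contains_iff_mem.1 (List.all_eq_true.1 k4 c hc)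
        have h2 := h c h1
        rw [jM_of_mem (hlsub c h1).1] at h2
        exact h2
    by_cases h : ∀ z ∈ X, 1 ≤ e z
    · rw [if_pos h, if_pos (hiff.1 h)]
    · rw [if_neg h, if_neg (fun h' => h (hiff.2 h'))]

end loc

end Pool.Agent.GaussPoset.Win.Ev
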