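import Pool.Agent.W_448co_h5.PartA

/-!
# Verified evaluator for window sums (MP_448cb3_co), part A: programs

A program assigns labels to elements (coded by natural numbers) and checks the elements. All
functions which the kernel has to run are written with recursors.
-/

namespace Pool.Agent.GaussPoset.Win.Ev

/-- a program: assign a label `≥ lb` to `x`; check a site, a lower or an upper element; jump to `q`
if all labels of `xs` are zero (`q` is the program `p` without its first `k` steps) -/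
inductive Prog where
  | nil : Prog
  | asg (x lb : ℕ) (caps : List (ℕ × List ℕ)) (p : Prog) : Prog
  | site (x : ℕ) (dl ul : List ℕ) (p : Prog) : Prog
  | low (x : ℕ) (o inn : List ℕ) (p : Prog) : Prog
  | upp (x : ℕ) (o inn : List ℕ) (p : Prog) : Prog
  | skp (xs : List ℕ) (k : ℕ) (q p : Prog) : Prog
  deriving DecidableEq

/-- digit `x` of `v` in base 32 -/
def dg (v x : ℕ) : ℕ := Nat.mod (Nat.div v (Nat.pow 32 x)) 32

/-- some element of the list has a label larger than `l` -/
noncomputable def gtA (v l : ℕ) (o : List ℕ) : Bool :=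
  List.rec false (fun y _ r => Bool.rec r true (Nat.ble (Nat.succ l) (dg v y))) o

/-- some element of the list has a label at least `l` -/
noncomputable def geA (v l : ℕ) (o : List ℕ) : Bool :=
  List.rec false (fun y _ r => Bool.rec r true (Nat.ble l (dg v y))) o

/-- all labels of the list are zero -/
noncomputable def zeA (v : ℕ) (o : List ℕ) : Bool :=
  List.rec true (fun y _ r => Bool.rec false r (Nat.beq (dg v y) 0)) o

/-- largest useful label -/
noncomputable def capOf (v b : ℕ) (cs : List (ℕ × List ℕ)) : ℕ :=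
  List.rec b (fun c _ r => Bool.rec r (Bool.rec r (dg v c.1) (Nat.ble (dg v c.1) r))
    (geA v (dg v c.1) c.2)) cs

/-- `g lb + g (lb + 1) + …`, `c` terms -/
noncomputable def loop (g : ℕ → ℤ) (lb c : ℕ) : ℤ :=
  Nat.rec (Int.ofNat 0) (fun c r => Int.add r (g (Nat.add lb c))) c

/-- sign -/
def sg (n : ℕ) : ℤ := bif Nat.beq (Nat.mod n 2) 0 then 1 else -1

/-- coefficient of `d^k` of `xx^n1 * xi^n2`, `k ≤ 2` -/
def cf (n1 n2 : ℕ) : ℕ → ℤ
  | 0 => sg (Nat.add n1 n2)
  | 1 => sg (Nat.add n1 n2) * ((n2 : ℤ) - n1)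
  | 2 => sg (Nat.add n1 n2) * (((n1 : ℤ) - n2) * ((n1 : ℤ) - n2 - 1) / 2)
  | _ => 0

/-- the evaluator: coefficient of `d^m`; arguments labels, energy left, exponents of `xx`, `xi`, `dd` -/
noncomputable def ev (m : ℕ) (p : Prog) : ℕ → ℕ → ℕ → ℕ → ℕ → ℤ :=
  Prog.rec (motive := fun _ => ℕ → ℕ → ℕ → ℕ → ℕ → ℤ)
    (fun _ b n1 n2 f => Bool.rec (Int.ofNat 0) (cf n1 n2 (Nat.sub m f)) (Nat.beq b 0))
    (fun x lb caps _ K v b n1 n2 f =>
      loop (fun k => K (Nat.add v (Nat.mul k (Nat.pow 32 x))) (Nat.sub b k) n1 n2 f) lb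
        (Nat.sub (Nat.succ (capOf v b caps)) lb))
    (fun x dl ul _ K v b n1 n2 f =>
      Bool.rec
        (Bool.rec
          (Bool.rec (K v b n1 n2 (Nat.succ f)) (Int.ofNat 0) (Nat.ble m f))
          (K v b n1 n2 f) (gtA v (dg v x) ul))
        (Bool.rec (K v b (Nat.succ n1) n2 f) (Int.ofNat 0) (gtA v (dg v x) ul))
        (gtA v (dg v x) dl))
    (fun x o inn _ K v b n1 n2 f =>
      Bool.rec
        (Bool.rec
          (Bool.rec (K v b n1 n2 (Nat.succ f)) (Int.ofNat 0) (Nat.ble m f))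
          (K v b n1 n2 f) (geA v (dg v x) inn))
        (Bool.rec (K v b (Nat.succ n1) n2 f) (Int.ofNat 0) (geA v (dg v x) inn))
        (gtA v (dg v x) o))
    (fun x o inn _ K v b n1 n2 f =>
      Bool.rec
        (Bool.rec
          (Bool.rec (K v b n1 (Nat.succ n2) (Nat.succ f)) (Int.ofNat 0) (Nat.ble m f))
          (K v b n1 n2 f) (geA v (dg v x) inn))
        (Bool.rec (K v b n1 (Nat.succ n2) f) (Int.ofNat 0) (geA v (dg v x) inn))
        (gtA v (dg v x) o))
    (fun xs _ _ _ Kq Kp v b n1 n2 f =>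
      Bool.rec (Kp v b n1 n2 f) (Kq v b n1 n2 f) (zeA v xs))
    p

end Pool.Agent.GaussPoset.Win.Ev
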