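import Pool.Agent.W_448ev_h61.EvA

/-!
# Verified evaluator, part B: coefficients of `xx^n1 * xi^n2 * dd^f`, digits, equations of the
evaluator
-/

namespace Pool.Agent.GaussPoset.Win.Ev

open PowerSeries

lemma sg_eq (n : ℕ) : sg n = (-1) ^ n := by
  unfold sg
  show cond (Nat.beq (n % 2) 0) (1 : ℤ) (-1) = (-1) ^ n
  rcases Nat.even_or_odd n with h | h
  · rw [Nat.even_iff.1 h, h.neg_one_pow]; rfl
  · rw [Nat.odd_iff.1 h, h.neg_one_pow]; rfl

lemma coeff_zero_xx_mul (F : A) : coeff 0 (xx * F) = - coeff 0 F := by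
  unfold xx dd
  rw [sub_mul, one_mul, map_sub, PowerSeries.coeff_zero_X_mul, zero_sub]

lemma coeff_succ_xx_mul (k : ℕ) (F : A) :
    coeff (k + 1) (xx * F) = coeff k F - coeff (k + 1) F := by
  unfold xx dd
  rw [sub_mul, one_mul, map_sub, PowerSeries.coeff_succ_X_mul]

lemma xx_xi_mul (F : A) : xx * (xi * F) = F := by
  rw [← mul_assoc, xx_mul_xi, one_mul]

lemma coeff_zero_xi_mul (F : A) : coeff 0 (xi * F) = - coeff 0 F := by
  have h := coeff_zero_xx_mul (xi * F)
  rw [xx_xi_mul] at h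
  rw [h, neg_neg]

lemma coeff_succ_xi_mul (k : ℕ) (F : A) :
    coeff (k + 1) (xi * F) = coeff k (xi * F) - coeff (k + 1) F := by
  have h := coeff_succ_xx_mul k (xi * F)
  rw [xx_xi_mul] at h
  rw [h]
  ring

lemma cf_key : ∀ n1 n2 : ℕ,
    coeff 0 (xx ^ n1 * xi ^ n2 : A) = (-1 : ℤ) ^ (n1 + n2) ∧
    coeff 1 (xx ^ n1 * xi ^ n2 : A) = (-1 : ℤ) ^ (n1 + n2) * ((n2 : ℤ) - n1) ∧
    2 * coeff 2 (xx ^ n1 * xi ^ n2 : A) =
      (-1 : ℤ) ^ (n1 + n2) * (((n1 : ℤ) - n2) * ((n1 : ℤ) - n2 - 1)) := by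
  intro n1
  induction n1 with
  | zero =>
    intro n2
    induction n2 with
    | zero =>
      refine ⟨by simp, ?_, ?_⟩
      · simp [PowerSeries.coeff_one]
      · simp [PowerSeries.coeff_one]
    | succ n2 ih =>
      obtain ⟨h0, h1, h2⟩ := ih
      rw [pow_zero, one_mul] at h0 h1 h2
      have e0 : coeff 0 (xi ^ (n2 + 1) : A) = - coeff 0 (xi ^ n2 : A) := by
        rw [pow_succ', coeff_zero_xi_mul]
      have e1 : coeff 1 (xi ^ (n2 + 1) : A) = coeff 0 (xi ^ (n2 + 1) : A) - coeff 1 (xi ^ n2 : A) := by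
        rw [pow_succ']; exact coeff_succ_xi_mul 0 _
      have e2 : coeff 2 (xi ^ (n2 + 1) : A) = coeff 1 (xi ^ (n2 + 1) : A) - coeff 2 (xi ^ n2 : A) := by
        rw [pow_succ']; exact coeff_succ_xi_mul 1 _
      rw [pow_zero, one_mul, e2, e1, e0, h0, h1]
      refine ⟨?_, ?_, ?_⟩
      · rw [← add_assoc, pow_succ]; ring
      · rw [← add_assoc, pow_succ]; push_cast; ring
      · rw [mul_sub, h2, ← add_assoc, pow_succ]; push_cast; ring
  | succ n1 ih =>
    intro n2
    obtain ⟨h0, h1, h2⟩ := ih n2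
    have e0 : coeff 0 (xx ^ (n1 + 1) * xi ^ n2 : A) = - coeff 0 (xx ^ n1 * xi ^ n2 : A) := by
      rw [pow_succ', mul_assoc, coeff_zero_xx_mul]
    have e1 : coeff 1 (xx ^ (n1 + 1) * xi ^ n2 : A) =
        coeff 0 (xx ^ n1 * xi ^ n2 : A) - coeff 1 (xx ^ n1 * xi ^ n2 : A) := by
      rw [pow_succ', mul_assoc]; exact coeff_succ_xx_mul 0 _
    have e2 : coeff 2 (xx ^ (n1 + 1) * xi ^ n2 : A) =
        coeff 1 (xx ^ n1 * xi ^ n2 : A) - coeff 2 (xx ^ n1 * xi ^ n2 : A) := by
      rw [pow_succ', mul_assoc]; exact coeff_succ_xx_mul 1 _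
    have e3 : n1 + 1 + n2 = n1 + n2 + 1 := by omega
    rw [e0, e1, e2, h0, h1, e3]
    refine ⟨?_, ?_, ?_⟩
    · rw [pow_succ]; ring
    · rw [pow_succ]; push_cast; ring
    · rw [mul_sub, h2, pow_succ]; push_cast; ring

theorem cf_eq (n1 n2 : ℕ) : ∀ k, k ≤ 2 → coeff k (xx ^ n1 * xi ^ n2 : A) = cf n1 n2 k := by
  obtain ⟨h0, h1, h2⟩ := cf_key n1 n2
  intro k hk
  have e : sg (Nat.add n1 n2) = (-1) ^ (n1 + n2) := sg_eq (n1 + n2)
  interval_cases k
  · show _ = sg (Nat.add n1 n2)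
    rw [e, h0]
  · show _ = sg (Nat.add n1 n2) * ((n2 : ℤ) - n1)
    rw [e, h1]
  · show _ = sg (Nat.add n1 n2) * (((n1 : ℤ) - n2) * ((n1 : ℤ) - n2 - 1) / 2)
    rw [e]
    have h3 : (((n1 : ℤ) - n2) * ((n1 : ℤ) - n2 - 1) / 2) * 2 = ((n1 : ℤ) - n2) * ((n1 : ℤ) - n2 - 1) := by
      apply Int.ediv_mul_cancel
      have := Int.even_mul_pred_self ((n1 : ℤ) - n2)
      exact this.two_dvd
    rw [← h3] at h2
    have h4 : 2 * coeff 2 (xx ^ n1 * xi ^ n2 : A) =
      2 * ((-1 : ℤ) ^ (n1 + n2) * (((n1 : ℤ) - n2) * ((n1 : ℤ) - n2 - 1) / 2)) := by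
      rw [h2]; ring
    exact mul_left_cancel₀ (by norm_num) h4

/-- the value at the end of a program -/
lemma coeff_end {m n1 n2 f : ℕ} (hm : m ≤ 2) (hf : f ≤ m) :
    coeff m (xx ^ n1 * xi ^ n2 * dd ^ f : A) = cf n1 n2 (m - f) := by
  unfold dd
  rw [PowerSeries.coeff_mul_X_pow', if_pos hf]
  exact cf_eq n1 n2 _ (by omega)

lemma coeff_big {m n1 n2 f : ℕ} (hf : m < f) (F : A) :
    coeff m (xx ^ n1 * xi ^ n2 * dd ^ f * F : A) = 0 := by
  have : (xx ^ n1 * xi ^ n2 * dd ^ f * F : A) = (xx ^ n1 * xi ^ n2 * F) * dd ^ f := by ring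
  rw [this]
  unfold dd
  rw [PowerSeries.coeff_mul_X_pow', if_neg (by omega)]

/-! digits -/

lemma dg_def (v x : ℕ) : dg v x = v / 32 ^ x % 32 := rfl

lemma dg_add {v x k : ℕ} (hk : k < 32) (h0 : dg v x = 0) (y : ℕ) :
    dg (v + k * 32 ^ x) y = if y = x then k else dg v y := by
  rw [dg_def] at h0
  rw [dg_def, dg_def]
  rcases Nat.lt_trichotomy y x with h | h | h
  · rw [if_neg (by omega)]
    obtain ⟨c, rfl⟩ : ∃ c, x = y + (c + 1) := ⟨x - y - 1, by omega⟩
    have e1 : k * 32 ^ (y + (c + 1)) = 32 ^ y * (32 * (k * 32 ^ c)) := by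
      rw [pow_add, pow_succ]; ring
    rw [e1, Nat.add_mul_div_left _ _ (by positivity), Nat.add_mul_mod_self_left]
  · subst h
    rw [if_pos rfl, Nat.add_mul_div_right _ _ (by positivity), Nat.add_mod, h0, Nat.zero_add,
      Nat.mod_mod, Nat.mod_eq_of_lt hk]
  · rw [if_neg (by omega)]
    obtain ⟨c, rfl⟩ : ∃ c, y = x + (c + 1) := ⟨y - x - 1, by omega⟩
    have e1 : 32 ^ (x + (c + 1)) = 32 ^ x * (32 * 32 ^ c) := by
      rw [pow_add, pow_succ]; ring
    rw [e1, ← Nat.div_div_eq_div_mul, ← Nat.div_div_eq_div_mul, ← Nat.div_div_eq_div_mul,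
      ← Nat.div_div_eq_div_mul, Nat.add_mul_div_right _ _ (by positivity)]
    have e2 : (v / 32 ^ x + k) / 32 = v / 32 ^ x / 32 := by omega
    rw [e2]

/-! equations of the auxiliary functions -/

lemma rec_cond {α : Type*} (c : Bool) (a b : α) : @Bool.rec (fun _ => α) b a c = cond c a b := by
  cases c <;> rfl

lemma gtA_cons (v l y : ℕ) (t : List ℕ) :
    gtA v l (y :: t) = cond (Nat.ble (Nat.succ l) (dg v y)) true (gtA v l t) := by
  have e : gtA v l (y :: t) =
    @Bool.rec (fun _ => Bool) (gtA v l t) true (Nat.ble (Nat.succ l) (dg v y)) := rfl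
  rw [e, rec_cond]

lemma geA_cons (v l y : ℕ) (t : List ℕ) :
    geA v l (y :: t) = cond (Nat.ble l (dg v y)) true (geA v l t) := by
  have e : geA v l (y :: t) =
    @Bool.rec (fun _ => Bool) (geA v l t) true (Nat.ble l (dg v y)) := rfl
  rw [e, rec_cond]

lemma zeA_cons (v y : ℕ) (t : List ℕ) :
    zeA v (y :: t) = cond (Nat.beq (dg v y) 0) (zeA v t) false := by
  have e : zeA v (y :: t) =
    @Bool.rec (fun _ => Bool) false (zeA v t) (Nat.beq (dg v y) 0) := rfl
  rw [e, rec_cond]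

lemma capOf_cons (v b : ℕ) (c : ℕ × List ℕ) (t : List (ℕ × List ℕ)) :
    capOf v b (c :: t) = cond (geA v (dg v c.1) c.2)
        (cond (Nat.ble (dg v c.1) (capOf v b t)) (dg v c.1) (capOf v b t)) (capOf v b t) := by
  have e : capOf v b (c :: t) = @Bool.rec (fun _ => ℕ) (capOf v b t)
      (@Bool.rec (fun _ => ℕ) (capOf v b t) (dg v c.1) (Nat.ble (dg v c.1) (capOf v b t)))
      (geA v (dg v c.1) c.2) := rfl
  rw [e, rec_cond, rec_cond]

lemma gtA_eq (v l : ℕ) (o : List ℕ) : gtA v l o = true ↔ ∃ y ∈ o, l < dg v y := by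
  induction o with
  | nil => exact ⟨fun h => absurd h (by show ¬ (false = true); simp), fun ⟨y, hy, _⟩ => by simp at hy⟩
  | cons y t ih =>
    rw [gtA_cons]
    cases hc : Nat.ble (Nat.succ l) (dg v y) with
    | true =>
      have := Nat.le_of_ble_eq_true hc
      simp only [cond_true, true_iff]
      exact ⟨y, by simp, this⟩
    | false =>
      have h1 : ¬ l < dg v y := fun h => by
        have := Nat.ble_eq_true_of_le (show Nat.succ l ≤ dg v y from h)
        rw [hc] at this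
        exact absurd this (by simp)
      rw [cond_false, ih]
      constructor
      · rintro ⟨z, hz, h2⟩
        exact ⟨z, List.mem_cons_of_mem _ hz, h2⟩
      · rintro ⟨z, hz, h2⟩
        rcases List.mem_cons.1 hz with rfl | h
        · exact absurd h2 h1
        · exact ⟨z, h, h2⟩

lemma geA_eq (v l : ℕ) (o : List ℕ) : geA v l o = true ↔ ∃ y ∈ o, l ≤ dg v y := by
  induction o with
  | nil => exact ⟨fun h => absurd h (by show ¬ (false = true); simp), fun ⟨y, hy, _⟩ => by simp at hy⟩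
  | cons y t ih =>
    rw [geA_cons]
    cases hc : Nat.ble l (dg v y) with
    | true =>
      have := Nat.le_of_ble_eq_true hc
      simp only [cond_true, true_iff]
      exact ⟨y, by simp, this⟩
    | false =>
      have h1 : ¬ l ≤ dg v y := fun h => by
        have := Nat.ble_eq_true_of_le h
        rw [hc] at this
        exact absurd this (by simp)
      rw [cond_false, ih]
      constructor
      · rintro ⟨z, hz, h2⟩
        exact ⟨z, List.mem_cons_of_mem _ hz, h2⟩
      · rintro ⟨z, hz, h2⟩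
        rcases List.mem_cons.1 hz with rfl | h
        · exact absurd h2 h1
        · exact ⟨z, h, h2⟩

lemma zeA_eq (v : ℕ) (o : List ℕ) : zeA v o = true ↔ ∀ y ∈ o, dg v y = 0 := by
  induction o with
  | nil => exact ⟨fun _ y hy => by simp at hy, fun _ => rfl⟩
  | cons y t ih =>
    rw [zeA_cons]
    cases hc : Nat.beq (dg v y) 0 with
    | true =>
      have := Nat.eq_of_beq_eq_true hc
      rw [cond_true, ih]
      constructor
      · intro h z hz
        rcases List.mem_cons.1 hz with rfl | h'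
        · exact this
        · exact h z h'
      · intro h z hz
        exact h z (List.mem_cons_of_mem _ hz)
    | false =>
      have := Nat.ne_of_beq_eq_false hc
      rw [cond_false]
      constructor
      · intro h; exact absurd h (by simp)
      · intro h; exact absurd (h y (by simp)) this

/-- properties of the cap -/
lemma capOf_spec (v b : ℕ) (cs : List (ℕ × List ℕ)) :
    capOf v b cs ≤ b ∧ ∀ k, capOf v b cs < k → k ≤ b →
      ∃ c ∈ cs, dg v c.1 < k ∧ ∃ z ∈ c.2, dg v c.1 ≤ dg v z := by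
  induction cs with
  | nil => exact ⟨le_rfl, fun k h1 h2 => absurd h2 (by show ¬ k ≤ b; have : b < k := h1; omega)⟩
  | cons c t ih =>
    obtain ⟨ih1, ih2⟩ := ih
    have lift : ∀ k, capOf v b t < k → k ≤ b →
        ∃ c' ∈ c :: t, dg v c'.1 < k ∧ ∃ z ∈ c'.2, dg v c'.1 ≤ dg v z := by
      intro k h1 h2
      obtain ⟨c', h3, h4⟩ := ih2 k h1 h2
      exact ⟨c', List.mem_cons_of_mem _ h3, h4⟩
    rw [capOf_cons]
    cases hg : geA v (dg v c.1) c.2 with
    | false => rw [cond_false]; exact ⟨ih1, lift⟩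
    | true =>
      rw [cond_true]
      cases hb : Nat.ble (dg v c.1) (capOf v b t) with
      | false => rw [cond_false]; exact ⟨ih1, lift⟩
      | true =>
        rw [cond_true]
        have h1 := Nat.le_of_ble_eq_true hb
        refine ⟨h1.trans ih1, fun k h2 h3 => ?_⟩
        exact ⟨c, by simp, h2, (geA_eq _ _ _).1 hg⟩

lemma loop_eq (g : ℕ → ℤ) (lb c : ℕ) : loop g lb c = ∑ k ∈ Finset.range c, g (lb + k) := by
  induction c with
  | zero => rfl
  | succ c ih =>
    rw [Finset.sum_range_succ, ← ih]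
    rfl

end Pool.Agent.GaussPoset.Win.Ev
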