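import Pool.Agent.W_448ev_h61.EvB

/-!
# Verified evaluator, part C: meaning of a program, correctness of the evaluator
-/

namespace Pool.Agent.GaussPoset.Win.Ev

open PowerSeries

lemma nbeq {a b : ℕ} : Nat.beq a b = false ↔ a ≠ b := by
  constructor
  · exact Nat.ne_of_beq_eq_false
  · intro h
    cases hc : Nat.beq a b with
    | false => rfl
    | true => exact absurd (Nat.eq_of_beq_eq_true hc) h

/-- weight of a site -/
noncomputable def wS (L : ℕ → ℕ) (x : ℕ) (dl ul : List ℕ) : A :=
  if ∃ y ∈ dl, L x < L y then (if ∃ y ∈ ul, L x < L y then 0 else xx)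
  else (if ∃ y ∈ ul, L x < L y then 1 else dd)

/-- weight of a lower element -/
noncomputable def wL (L : ℕ → ℕ) (x : ℕ) (o inn : List ℕ) : A :=
  if ∃ y ∈ o, L x < L y then (if ∃ y ∈ inn, L x ≤ L y then 0 else xx)
  else (if ∃ y ∈ inn, L x ≤ L y then 1 else dd)

/-- weight of an upper element -/
noncomputable def wU (L : ℕ → ℕ) (x : ℕ) (o inn : List ℕ) : A :=
  if ∃ y ∈ o, L x < L y then (if ∃ y ∈ inn, L x ≤ L y then 0 else xi)
  else (if ∃ y ∈ inn, L x ≤ L y then 1 else xi * dd)

/-- meaning of a program: labels given so far, energy left -/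
noncomputable def sem : Prog → (ℕ → ℕ) → ℕ → A
  | Prog.nil, _, b => if b = 0 then 1 else 0
  | Prog.asg x lb _ p, L, b =>
      ∑ k ∈ Finset.range (b + 1), if lb ≤ k then sem p (Function.update L x k) (b - k) else 0
  | Prog.site x dl ul p, L, b => wS L x dl ul * sem p L b
  | Prog.low x o inn p, L, b => wL L x o inn * sem p L b
  | Prog.upp x o inn p, L, b => wU L x o inn * sem p L b
  | Prog.skp _ _ _ p, L, b => sem p L b

/-- `p` checks `y` with `x` outside and `zs` inside, none of them is assigned in `p` -/
def capOK (x y : ℕ) (zs : List ℕ) : Prog → Bool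
  | Prog.nil => false
  | Prog.asg x' _ _ p => !(Nat.beq x' x) && !(Nat.beq x' y) && !(zs.contains x') && capOK x y zs p
  | Prog.site _ _ _ p => capOK x y zs p
  | Prog.low y' o inn p =>
      (Nat.beq y' y && o.contains x && zs.all (fun z => inn.contains z)) || capOK x y zs p
  | Prog.upp y' o inn p =>
      (Nat.beq y' y && o.contains x && zs.all (fun z => inn.contains z)) || capOK x y zs p
  | Prog.skp _ _ _ p => capOK x y zs p

/-- the assigned elements -/
def asgs : Prog → List ℕ
  | Prog.nil => []
  | Prog.asg x _ _ p => x :: asgs p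
  | Prog.site _ _ _ p => asgs p
  | Prog.low _ _ _ p => asgs p
  | Prog.upp _ _ _ p => asgs p
  | Prog.skp _ _ _ p => asgs p

/-- after `k` steps, in which nothing happens if the labels of `Z` are zero, `p` becomes `q` -/
def skipOK : ℕ → List ℕ → Prog → Prog → Bool
  | 0, _, p, q => decide (p = q)
  | k + 1, Z, Prog.asg x lb caps p, q =>
      Nat.beq lb 0 && caps.any (fun c => Z.contains c.1 && !c.2.isEmpty) && skipOK k (x :: Z) p q
  | k + 1, Z, Prog.low x o inn p, q =>
      Z.contains x && o.all (fun y => Z.contains y) && !inn.isEmpty && skipOK k Z p q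
  | k + 1, Z, Prog.upp x o inn p, q =>
      Z.contains x && o.all (fun y => Z.contains y) && !inn.isEmpty && skipOK k Z p q
  | k + 1, Z, Prog.skp _ _ _ p, q => skipOK k Z p q
  | _ + 1, _, Prog.nil, _ => false
  | _ + 1, _, Prog.site _ _ _ _, _ => false

/-- validity of a program -/
def valid : Prog → Bool
  | Prog.nil => true
  | Prog.asg x _ caps p => !((asgs p).contains x) && caps.all (fun c => !(Nat.beq c.1 x) && capOK x c.1 c.2 p) &&
      valid p
  | Prog.site _ _ _ p => valid p
  | Prog.low _ _ _ p => valid p
  | Prog.upp _ _ _ p => valid p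
  | Prog.skp xs k q p => skipOK k xs p q && valid q && valid p

lemma upd_ne {L : ℕ → ℕ} {x k y : ℕ} (h : y ≠ x) : Function.update L x k y = L y :=
  Function.update_of_ne h k L

theorem dead {x y : ℕ} {zs : List ℕ} : ∀ (p : Prog), capOK x y zs p = true → ∀ (L : ℕ → ℕ) (b : ℕ),
    L y < L x → (∃ z ∈ zs, L y ≤ L z) → sem p L b = 0 := by
  intro p
  induction p with
  | nil => intro h; exact absurd h (by simp [capOK])
  | asg x' lb caps p ih =>
    intro h L b h1 h2
    simp only [capOK, Bool.and_eq_true, Bool.not_eq_true', nbeq] at h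
    obtain ⟨⟨⟨h3, h4⟩, h5⟩, h6⟩ := h
    have h5' : x' ∉ zs := by
      intro h7
      rw [List.contains_iff_mem.2 h7] at h5
      exact absurd h5 (by simp)
    unfold sem
    refine Finset.sum_eq_zero fun k _ => ?_
    split_ifs with hk
    · refine ih h6 _ _ ?_ ?_
      · rw [upd_ne (Ne.symm h3), upd_ne (Ne.symm h4)]
        exact h1
      · obtain ⟨z, hz, hz2⟩ := h2
        refine ⟨z, hz, ?_⟩
        have hzx : z ≠ x' := fun h8 => h5' (by rw [← h8]; exact hz)
        rw [upd_ne (Ne.symm h4), upd_ne hzx]
        exact hz2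
    · rfl
  | site x' dl ul p ih =>
    intro h L b h1 h2
    unfold sem
    rw [ih h L b h1 h2, mul_zero]
  | low y' o inn p ih =>
    intro h L b h1 h2
    unfold sem
    simp only [capOK, Bool.or_eq_true, Bool.and_eq_true] at h
    rcases h with ⟨⟨h3, h4⟩, h5⟩ | h3
    · have h6 : y' = y := Nat.eq_of_beq_eq_true h3
      subst h6
      have h7 : x ∈ o := List.contains_iff_mem.1 h4
      obtain ⟨z, hz, hz2⟩ := h2
      have h8 : z ∈ inn := List.contains_iff_mem.1 (List.all_eq_true.1 h5 z hz)
      unfold wL
      rw [if_pos ⟨x, h7, h1⟩, if_pos ⟨z, h8, hz2⟩, zero_mul]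
    · rw [ih h3 L b h1 h2, mul_zero]
  | upp y' o inn p ih =>
    intro h L b h1 h2
    unfold sem
    simp only [capOK, Bool.or_eq_true, Bool.and_eq_true] at h
    rcases h with ⟨⟨h3, h4⟩, h5⟩ | h3
    · have h6 : y' = y := Nat.eq_of_beq_eq_true h3
      subst h6
      have h7 : x ∈ o := List.contains_iff_mem.1 h4
      obtain ⟨z, hz, hz2⟩ := h2
      have h8 : z ∈ inn := List.contains_iff_mem.1 (List.all_eq_true.1 h5 z hz)
      unfold wU
      rw [if_pos ⟨x, h7, h1⟩, if_pos ⟨z, h8, hz2⟩, zero_mul]
    · rw [ih h3 L b h1 h2, mul_zero]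
  | skp xs k q p ihq ih =>
    intro h L b h1 h2
    unfold sem
    exact ih h L b h1 h2

theorem skip_sem : ∀ (k : ℕ) (Z : List ℕ) (p q : Prog), skipOK k Z p q = true → valid p = true →
    ∀ (L : ℕ → ℕ) (b : ℕ), (∀ y ∈ Z, L y = 0) → (∀ x ∈ asgs p, L x = 0) → sem p L b = sem q L b := by
  intro k
  induction k with
  | zero =>
    intro Z p q h _ L b _ _
    unfold skipOK at h
    rw [of_decide_eq_true h]
  | succ k ih =>
    intro Z p q h hv L b hZ hA
    match p, h, hv, hA with
    | Prog.nil, h, _, _ => exact absurd h (by simp [skipOK])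
    | Prog.site _ _ _ _, h, _, _ => exact absurd h (by simp [skipOK])
    | Prog.skp _ _ _ p, h, hv, hA =>
      rw [skipOK] at h
      simp only [valid, Bool.and_eq_true] at hv
      rw [sem]
      exact ih Z p q h hv.2 L b hZ hA
    | Prog.low x o inn p, h, hv, hA =>
      rw [skipOK] at h
      simp only [Bool.and_eq_true, Bool.not_eq_true'] at h
      obtain ⟨⟨⟨h1, h2⟩, h3⟩, h4⟩ := h
      rw [valid] at hv
      rw [sem, ih Z p q h4 hv L b hZ hA]
      have e1 : L x = 0 := hZ x (List.contains_iff_mem.1 h1)
      have e2 : ¬ ∃ y ∈ o, L x < L y := by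
        rintro ⟨y, hy, hlt⟩
        have := hZ y (List.contains_iff_mem.1 (List.all_eq_true.1 h2 y hy))
        omega
      have e3 : ∃ y ∈ inn, L x ≤ L y := by
        cases inn with
        | nil => exact absurd h3 (by simp)
        | cons z t => exact ⟨z, by simp, by rw [e1]; exact Nat.zero_le _⟩
      unfold wL
      rw [if_neg e2, if_pos e3, one_mul]
    | Prog.upp x o inn p, h, hv, hA =>
      rw [skipOK] at h
      simp only [Bool.and_eq_true, Bool.not_eq_true'] at h
      obtain ⟨⟨⟨h1, h2⟩, h3⟩, h4⟩ := h
      rw [valid] at hv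
      rw [sem, ih Z p q h4 hv L b hZ hA]
      have e1 : L x = 0 := hZ x (List.contains_iff_mem.1 h1)
      have e2 : ¬ ∃ y ∈ o, L x < L y := by
        rintro ⟨y, hy, hlt⟩
        have := hZ y (List.contains_iff_mem.1 (List.all_eq_true.1 h2 y hy))
        omega
      have e3 : ∃ y ∈ inn, L x ≤ L y := by
        cases inn with
        | nil => exact absurd h3 (by simp)
        | cons z t => exact ⟨z, by simp, by rw [e1]; exact Nat.zero_le _⟩
      unfold wU
      rw [if_neg e2, if_pos e3, one_mul]
    | Prog.asg x lb caps p, h, hv, hA =>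
      rw [skipOK] at h
      simp only [Bool.and_eq_true] at h
      obtain ⟨⟨h1, h2⟩, h3⟩ := h
      simp only [valid, Bool.and_eq_true] at hv
      obtain ⟨⟨v1, v2⟩, v3⟩ := hv
      have hlb : lb = 0 := Nat.eq_of_beq_eq_true h1
      obtain ⟨c, hc, hc2⟩ := List.any_eq_true.1 h2
      rw [Bool.and_eq_true] at hc2
      obtain ⟨hc3, hc4⟩ := hc2
      have hx0 : L x = 0 := hA x (by rw [asgs]; simp)
      have hu : Function.update L x 0 = L := by
        rw [← hx0]; exact Function.update_eq_self x L
      have hcy : L c.1 = 0 := hZ c.1 (List.contains_iff_mem.1 hc3)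
      have hok0 := List.all_eq_true.1 v2 c hc
      rw [Bool.and_eq_true, Bool.not_eq_true', nbeq] at hok0
      obtain ⟨hcx, hok⟩ := hok0
      rw [sem, Finset.sum_eq_single 0]
      · rw [hlb, if_pos le_rfl, hu, Nat.sub_zero]
        refine ih (x :: Z) p q h3 v3 L b ?_ (fun y hy => hA y (by rw [asgs]; exact List.mem_cons_of_mem _ hy))
        intro y hy
        rcases List.mem_cons.1 hy with rfl | h5
        · exact hx0
        · exact hZ y h5
      · intro k' _ hk'
        split_ifs
        · obtain ⟨z, hz⟩ : ∃ z, z ∈ c.2 := by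
            cases hc5 : c.2 with
            | nil => rw [hc5] at hc4; exact absurd hc4 (by simp)
            | cons z t => exact ⟨z, by simp⟩
          refine dead p hok _ _ ?_ ⟨z, hz, ?_⟩
          · rw [Function.update_self, upd_ne hcx, hcy]
            omega
          · rw [upd_ne hcx, hcy]
            exact Nat.zero_le _
        · rfl
      · intro h6
        exact absurd (Finset.mem_range.2 (Nat.succ_pos b)) h6

/-- the elements assigned in `q` are assigned in `p` -/
lemma asgs_skip : ∀ (k : ℕ) (Z : List ℕ) (p q : Prog), skipOK k Z p q = true →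
    ∀ x ∈ asgs q, x ∈ asgs p := by
  intro k
  induction k with
  | zero =>
    intro Z p q h x hx
    unfold skipOK at h
    rw [of_decide_eq_true h]
    exact hx
  | succ k ih =>
    intro Z p q h x hx
    match p, h with
    | Prog.nil, h => exact absurd h (by simp [skipOK])
    | Prog.site _ _ _ _, h => exact absurd h (by simp [skipOK])
    | Prog.skp _ _ _ p, h =>
      rw [skipOK] at h
      rw [asgs]
      exact ih Z p q h x hx
    | Prog.low _ _ _ p, h =>
      rw [skipOK] at h
      rw [asgs]
      simp only [Bool.and_eq_true] at h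
      exact ih Z p q h.2 x hx
    | Prog.upp _ _ _ p, h =>
      rw [skipOK] at h
      rw [asgs]
      simp only [Bool.and_eq_true] at h
      exact ih Z p q h.2 x hx
    | Prog.asg x' lb caps p, h =>
      rw [skipOK] at h
      rw [asgs]
      simp only [Bool.and_eq_true] at h
      exact List.mem_cons_of_mem _ (ih (x' :: Z) p q h.2 x hx)

/-- THE EVALUATOR IS CORRECT. -/
theorem ev_eq {m : ℕ} (hm : m ≤ 2) : ∀ (p : Prog), valid p = true →
    ∀ (L : ℕ → ℕ) (v b n1 n2 f : ℕ), (∀ x, dg v x = L x) → (∀ x ∈ asgs p, L x = 0) → b < 32 →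
    f ≤ m → ev m p v b n1 n2 f = coeff m (xx ^ n1 * xi ^ n2 * dd ^ f * sem p L b : A) := by
  intro p
  induction p with
  | nil =>
    intro _ L v b n1 n2 f _ _ _ hf
    have e : ev m Prog.nil v b n1 n2 f = cond (Nat.beq b 0) (cf n1 n2 (Nat.sub m f)) 0 := by
      rw [← rec_cond]; rfl
    rw [e]
    unfold sem
    cases hb : Nat.beq b 0 with
    | true =>
      rw [cond_true, if_pos (Nat.eq_of_beq_eq_true hb), mul_one]
      exact (coeff_end hm hf).symm
    | false => rw [cond_false, if_neg (Nat.ne_of_beq_eq_false hb), mul_zero, map_zero]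
  | asg x lb caps p ih =>
    intro hv L v b n1 n2 f hL hA hb hf
    simp only [valid, Bool.and_eq_true, Bool.not_eq_true'] at hv
    obtain ⟨⟨v1, v2⟩, v3⟩ := hv
    have v1' : x ∉ asgs p := by
      intro h
      rw [List.contains_iff_mem.2 h] at v1
      exact absurd v1 (by simp)
    have hx0 : L x = 0 := hA x (by rw [asgs]; simp)
    have e : ev m (Prog.asg x lb caps p) v b n1 n2 f =
        loop (fun k => ev m p (v + k * 32 ^ x) (b - k) n1 n2 f) lb (capOf v b caps + 1 - lb) := rfl
    obtain ⟨c1, c2⟩ := capOf_spec v b caps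
    rw [e, loop_eq, sem, Finset.mul_sum, map_sum]
    have hrec : ∀ k, k ≤ b → ev m p (v + k * 32 ^ x) (b - k) n1 n2 f =
        coeff m (xx ^ n1 * xi ^ n2 * dd ^ f * sem p (Function.update L x k) (b - k) : A) := by
      intro k hk
      refine ih v3 _ _ _ _ _ _ ?_ ?_ (by omega) hf
      · intro y
        rw [dg_add (by omega) (by rw [hL]; exact hx0)]
        by_cases hy : y = x
        · rw [if_pos hy, hy, Function.update_self]
        · rw [if_neg hy, upd_ne hy, hL]
      · intro y hy
        have : y ≠ x := by rintro rfl; exact v1' hy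
        rw [upd_ne this]
        exact hA y (by rw [asgs]; exact List.mem_cons_of_mem _ hy)
    have e1 : ∑ k ∈ Finset.range (capOf v b caps + 1 - lb),
        ev m p (v + (lb + k) * 32 ^ x) (b - (lb + k)) n1 n2 f =
        ∑ k ∈ Finset.Ico lb (capOf v b caps + 1),
          coeff m (xx ^ n1 * xi ^ n2 * dd ^ f * sem p (Function.update L x k) (b - k) : A) := by
      rw [Finset.sum_Ico_eq_sum_range]
      refine Finset.sum_congr rfl fun k hk => hrec _ ?_
      have := Finset.mem_range.1 hk
      omega
    have e2 : ∀ k ∈ Finset.range (b + 1),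
        coeff m (xx ^ n1 * xi ^ n2 * dd ^ f *
          (if lb ≤ k then sem p (Function.update L x k) (b - k) else 0) : A) =
        if lb ≤ k ∧ k < capOf v b caps + 1 then
          coeff m (xx ^ n1 * xi ^ n2 * dd ^ f * sem p (Function.update L x k) (b - k) : A) else 0 := by
      intro k hk
      have hkb := Finset.mem_range.1 hk
      by_cases h1 : lb ≤ k
      · rw [if_pos h1]
        by_cases h2 : k < capOf v b caps + 1
        · rw [if_pos ⟨h1, h2⟩]
        · rw [if_neg (fun h => h2 h.2)]
          obtain ⟨c, hc, hc1, z, hz, hz1⟩ := c2 k (by omega) (by omega)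
          have hok0 := List.all_eq_true.1 v2 c hc
          rw [Bool.and_eq_true, Bool.not_eq_true', nbeq] at hok0
          obtain ⟨hcx, hok⟩ := hok0
          rw [hL] at hc1 hz1
          rw [hL] at hz1
          rw [dead p hok _ _ ?_ ⟨z, hz, ?_⟩, mul_zero, map_zero]
          · rw [Function.update_self, upd_ne hcx]
            exact hc1
          · rw [upd_ne hcx]
            by_cases hzx : z = x
            · rw [hzx, Function.update_self]
              omega
            · rw [upd_ne hzx]
              exact hz1
      · rw [if_neg h1, if_neg (fun h => h1 h.1), mul_zero, map_zero]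
    rw [e1, Finset.sum_congr rfl e2, ← Finset.sum_filter]
    refine Finset.sum_congr ?_ fun _ _ => rfl
    ext k
    simp only [Finset.mem_Ico, Finset.mem_filter, Finset.mem_range]
    omega
  | site x dl ul p ih =>
    intro hv L v b n1 n2 f hL hA hb hf
    rw [valid] at hv
    have e : ev m (Prog.site x dl ul p) v b n1 n2 f =
        cond (gtA v (dg v x) dl) (cond (gtA v (dg v x) ul) 0 (ev m p v b (n1 + 1) n2 f))
          (cond (gtA v (dg v x) ul) (ev m p v b n1 n2 f)
            (cond (Nat.ble m f) 0 (ev m p v b n1 n2 (f + 1)))) := by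
      simp only [← rec_cond]; rfl
    have g1 : gtA v (dg v x) dl = true ↔ ∃ y ∈ dl, L x < L y := by
      rw [gtA_eq]; simp only [hL]
    have g2 : gtA v (dg v x) ul = true ↔ ∃ y ∈ ul, L x < L y := by
      rw [gtA_eq]; simp only [hL]
    rw [e, sem]
    unfold wS
    cases h1 : gtA v (dg v x) dl with
    | true =>
      rw [cond_true, if_pos (g1.1 h1)]
      cases h2 : gtA v (dg v x) ul with
      | true => rw [cond_true, if_pos (g2.1 h2), zero_mul, mul_zero, map_zero]
      | false =>
        rw [cond_false, if_neg (fun h => by rw [g2.2 h] at h2; exact absurd h2 (by simp)),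
          ih hv L v b _ n2 f hL hA hb hf]
        congr 1
        ring
    | false =>
      rw [cond_false, if_neg (fun h => by rw [g1.2 h] at h1; exact absurd h1 (by simp))]
      cases h2 : gtA v (dg v x) ul with
      | true =>
        rw [cond_true, if_pos (g2.1 h2), ih hv L v b n1 n2 f hL hA hb hf, one_mul]
      | false =>
        rw [cond_false, if_neg (fun h => by rw [g2.2 h] at h2; exact absurd h2 (by simp))]
        cases h3 : Nat.ble m f with
        | true =>
          have h4 : m < f + 1 := Nat.lt_succ_of_le (Nat.le_of_ble_eq_true h3)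
          rw [cond_true]
          have h5 : (xx ^ n1 * xi ^ n2 * dd ^ f * (dd * sem p L b) : A) =
            xx ^ n1 * xi ^ n2 * dd ^ (f + 1) * sem p L b := by ring
          rw [h5, coeff_big h4]
        | false =>
          have h4 : ¬ m ≤ f := fun h => by
            have := Nat.ble_eq_true_of_le h
            rw [h3] at this
            exact absurd this (by simp)
          rw [cond_false, ih hv L v b n1 n2 (f + 1) hL hA hb (by omega)]
          congr 1
          ring
  | low x o inn p ih =>
    intro hv L v b n1 n2 f hL hA hb hf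
    rw [valid] at hv
    have e : ev m (Prog.low x o inn p) v b n1 n2 f =
        cond (gtA v (dg v x) o) (cond (geA v (dg v x) inn) 0 (ev m p v b (n1 + 1) n2 f))
          (cond (geA v (dg v x) inn) (ev m p v b n1 n2 f)
            (cond (Nat.ble m f) 0 (ev m p v b n1 n2 (f + 1)))) := by
      simp only [← rec_cond]; rfl
    have g1 : gtA v (dg v x) o = true ↔ ∃ y ∈ o, L x < L y := by
      rw [gtA_eq]; simp only [hL]
    have g2 : geA v (dg v x) inn = true ↔ ∃ y ∈ inn, L x ≤ L y := by
      rw [geA_eq]; simp only [hL]
    rw [e, sem]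
    unfold wL
    cases h1 : gtA v (dg v x) o with
    | true =>
      rw [cond_true, if_pos (g1.1 h1)]
      cases h2 : geA v (dg v x) inn with
      | true => rw [cond_true, if_pos (g2.1 h2), zero_mul, mul_zero, map_zero]
      | false =>
        rw [cond_false, if_neg (fun h => by rw [g2.2 h] at h2; exact absurd h2 (by simp)),
          ih hv L v b _ n2 f hL hA hb hf]
        congr 1
        ring
    | false =>
      rw [cond_false, if_neg (fun h => by rw [g1.2 h] at h1; exact absurd h1 (by simp))]
      cases h2 : geA v (dg v x) inn with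
      | true =>
        rw [cond_true, if_pos (g2.1 h2), ih hv L v b n1 n2 f hL hA hb hf, one_mul]
      | false =>
        rw [cond_false, if_neg (fun h => by rw [g2.2 h] at h2; exact absurd h2 (by simp))]
        cases h3 : Nat.ble m f with
        | true =>
          have h4 : m < f + 1 := Nat.lt_succ_of_le (Nat.le_of_ble_eq_true h3)
          rw [cond_true]
          have h5 : (xx ^ n1 * xi ^ n2 * dd ^ f * (dd * sem p L b) : A) =
            xx ^ n1 * xi ^ n2 * dd ^ (f + 1) * sem p L b := by ring
          rw [h5, coeff_big h4]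
        | false =>
          have h4 : ¬ m ≤ f := fun h => by
            have := Nat.ble_eq_true_of_le h
            rw [h3] at this
            exact absurd this (by simp)
          rw [cond_false, ih hv L v b n1 n2 (f + 1) hL hA hb (by omega)]
          congr 1
          ring
  | upp x o inn p ih =>
    intro hv L v b n1 n2 f hL hA hb hf
    rw [valid] at hv
    have e : ev m (Prog.upp x o inn p) v b n1 n2 f =
        cond (gtA v (dg v x) o) (cond (geA v (dg v x) inn) 0 (ev m p v b n1 (n2 + 1) f))
          (cond (geA v (dg v x) inn) (ev m p v b n1 n2 f)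
            (cond (Nat.ble m f) 0 (ev m p v b n1 (n2 + 1) (f + 1)))) := by
      simp only [← rec_cond]; rfl
    have g1 : gtA v (dg v x) o = true ↔ ∃ y ∈ o, L x < L y := by
      rw [gtA_eq]; simp only [hL]
    have g2 : geA v (dg v x) inn = true ↔ ∃ y ∈ inn, L x ≤ L y := by
      rw [geA_eq]; simp only [hL]
    rw [e, sem]
    unfold wU
    cases h1 : gtA v (dg v x) o with
    | true =>
      rw [cond_true, if_pos (g1.1 h1)]
      cases h2 : geA v (dg v x) inn with
      | true => rw [cond_true, if_pos (g2.1 h2), zero_mul, mul_zero, map_zero]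
      | false =>
        rw [cond_false, if_neg (fun h => by rw [g2.2 h] at h2; exact absurd h2 (by simp)),
          ih hv L v b n1 _ f hL hA hb hf]
        congr 1
        ring
    | false =>
      rw [cond_false, if_neg (fun h => by rw [g1.2 h] at h1; exact absurd h1 (by simp))]
      cases h2 : geA v (dg v x) inn with
      | true =>
        rw [cond_true, if_pos (g2.1 h2), ih hv L v b n1 n2 f hL hA hb hf, one_mul]
      | false =>
        rw [cond_false, if_neg (fun h => by rw [g2.2 h] at h2; exact absurd h2 (by simp))]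
        cases h3 : Nat.ble m f with
        | true =>
          have h4 : m < f + 1 := Nat.lt_succ_of_le (Nat.le_of_ble_eq_true h3)
          rw [cond_true]
          have h5 : (xx ^ n1 * xi ^ n2 * dd ^ f * (xi * dd * sem p L b) : A) =
            xx ^ n1 * xi ^ (n2 + 1) * dd ^ (f + 1) * sem p L b := by ring
          rw [h5, coeff_big h4]
        | false =>
          have h4 : ¬ m ≤ f := fun h => by
            have := Nat.ble_eq_true_of_le h
            rw [h3] at this
            exact absurd this (by simp)
          rw [cond_false, ih hv L v b n1 (n2 + 1) (f + 1) hL hA hb (by omega)]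
          congr 1
          ring
  | skp xs k q p ihq ih =>
    intro hv L v b n1 n2 f hL hA hb hf
    simp only [valid, Bool.and_eq_true] at hv
    obtain ⟨⟨v1, v2⟩, v3⟩ := hv
    have e : ev m (Prog.skp xs k q p) v b n1 n2 f =
        cond (zeA v xs) (ev m q v b n1 n2 f) (ev m p v b n1 n2 f) := by
      rw [← rec_cond]; rfl
    rw [e, sem]
    cases h1 : zeA v xs with
    | false => rw [cond_false]; exact ih v3 L v b n1 n2 f hL hA hb hf
    | true =>
      have hz : ∀ y ∈ xs, L y = 0 := fun y hy => by
        rw [← hL]; exact (zeA_eq _ _).1 h1 y hy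
      rw [cond_true, skip_sem k xs p q v1 v3 L b hz hA]
      refine ihq v2 L v b n1 n2 f hL ?_ hb hf
      intro x hx
      exact hA x (asgs_skip k xs p q v1 x hx)

end Pool.Agent.GaussPoset.Win.Ev
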