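import Pool.Agent.W_448ev_h61.EvC

/-!
# Verified evaluator, part D: the meaning of a program is a sum over configurations
-/

namespace Pool.Agent.GaussPoset.Win.Ev

open Finset

/-- product of all weights -/
noncomputable def prodW : Prog → (ℕ → ℕ) → A
  | Prog.nil, _ => 1
  | Prog.asg _ _ _ p, M => prodW p M
  | Prog.site x dl ul p, M => wS M x dl ul * prodW p M
  | Prog.low x o inn p, M => wL M x o inn * prodW p M
  | Prog.upp x o inn p, M => wU M x o inn * prodW p M
  | Prog.skp _ _ _ p, M => prodW p M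

/-- lower bounds -/
def lbs : Prog → (ℕ → ℕ) → Prop
  | Prog.nil, _ => True
  | Prog.asg x lb _ p, M => lb ≤ M x ∧ lbs p M
  | Prog.site _ _ _ p, M => lbs p M
  | Prog.low _ _ _ p, M => lbs p M
  | Prog.upp _ _ _ p, M => lbs p M
  | Prog.skp _ _ _ p, M => lbs p M

/-- checked elements and their neighbours are not assigned later -/
def dsj : Prog → Bool
  | Prog.nil => true
  | Prog.asg _ _ _ p => dsj p
  | Prog.site x dl ul p => !((asgs p).contains x) && dl.all (fun y => !((asgs p).contains y)) &&
      ul.all (fun y => !((asgs p).contains y)) && dsj p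
  | Prog.low x o inn p => !((asgs p).contains x) && o.all (fun y => !((asgs p).contains y)) &&
      inn.all (fun y => !((asgs p).contains y)) && dsj p
  | Prog.upp x o inn p => !((asgs p).contains x) && o.all (fun y => !((asgs p).contains y)) &&
      inn.all (fun y => !((asgs p).contains y)) && dsj p
  | Prog.skp _ _ _ p => dsj p

lemma lbs_asg {x lb : ℕ} {caps : List (ℕ × List ℕ)} {p : Prog} {M : ℕ → ℕ} :
    lbs (Prog.asg x lb caps p) M ↔ lb ≤ M x ∧ lbs p M := Iff.rfl

lemma lbs_nil {M : ℕ → ℕ} : lbs Prog.nil M := trivial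

lemma lbs_congr : ∀ (p : Prog) {M N : ℕ → ℕ}, (∀ x ∈ asgs p, M x = N x) → (lbs p M ↔ lbs p N) := by
  intro p
  induction p with
  | nil => intro M N _; rfl
  | asg x lb caps p ih =>
    intro M N h
    rw [asgs] at h
    rw [lbs_asg, lbs_asg, h x (by simp), ih fun y hy => h y (List.mem_cons_of_mem _ hy)]
  | site x dl ul p ih => intro M N h; exact ih h
  | low x o inn p ih => intro M N h; exact ih h
  | upp x o inn p ih => intro M N h; exact ih h
  | skp xs k q p _ ih => intro M N h; exact ih h

lemma sum_insert_anti {s : Finset ℕ} {i : ℕ} (hi : i ∉ s) (n : ℕ) (F : (ℕ → ℕ) → A) :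
    ∑ e ∈ (insert i s).piAntidiag n, F e =
      ∑ k ∈ range (n + 1), ∑ e ∈ s.piAntidiag (n - k), F (fun t => e t + if t = i then k else 0) := by
  rw [← Finset.cons_eq_insert i s hi, Finset.piAntidiag_cons hi, Finset.sum_disjiUnion]
  rw [Finset.Nat.sum_antidiagonal_eq_sum_range_succ_mk]
  refine Finset.sum_congr rfl fun k _ => ?_
  rw [Finset.sum_map]
  rfl

lemma not_contains {l : List ℕ} {x : ℕ} (h : l.contains x = false) : x ∉ l := by
  intro h'
  rw [List.contains_iff_mem.2 h'] at h
  exact absurd h (by simp)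

lemma wS_congr {L M : ℕ → ℕ} {x : ℕ} {dl ul : List ℕ} (h : L x = M x) (h1 : ∀ y ∈ dl, L y = M y)
    (h2 : ∀ y ∈ ul, L y = M y) : wS L x dl ul = wS M x dl ul := by
  have e1 : (∃ y ∈ dl, L x < L y) ↔ ∃ y ∈ dl, M x < M y := by
    constructor
    · rintro ⟨y, hy, h3⟩; exact ⟨y, hy, by rw [← h, ← h1 y hy]; exact h3⟩
    · rintro ⟨y, hy, h3⟩; exact ⟨y, hy, by rw [h, h1 y hy]; exact h3⟩
  have e2 : (∃ y ∈ ul, L x < L y) ↔ ∃ y ∈ ul, M x < M y := by
    constructor
    · rintro ⟨y, hy, h3⟩; exact ⟨y, hy, by rw [← h, ← h2 y hy]; exact h3⟩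
    · rintro ⟨y, hy, h3⟩; exact ⟨y, hy, by rw [h, h2 y hy]; exact h3⟩
  unfold wS
  simp only [e1, e2]

lemma wL_congr {L M : ℕ → ℕ} {x : ℕ} {dl ul : List ℕ} (h : L x = M x) (h1 : ∀ y ∈ dl, L y = M y)
    (h2 : ∀ y ∈ ul, L y = M y) : wL L x dl ul = wL M x dl ul := by
  have e1 : (∃ y ∈ dl, L x < L y) ↔ ∃ y ∈ dl, M x < M y := by
    constructor
    · rintro ⟨y, hy, h3⟩; exact ⟨y, hy, by rw [← h, ← h1 y hy]; exact h3⟩
    · rintro ⟨y, hy, h3⟩; exact ⟨y, hy, by rw [h, h1 y hy]; exact h3⟩
  have e2 : (∃ y ∈ ul, L x ≤ L y) ↔ ∃ y ∈ ul, M x ≤ M y := by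
    constructor
    · rintro ⟨y, hy, h3⟩; exact ⟨y, hy, by rw [← h, ← h2 y hy]; exact h3⟩
    · rintro ⟨y, hy, h3⟩; exact ⟨y, hy, by rw [h, h2 y hy]; exact h3⟩
  unfold wL
  simp only [e1, e2]

lemma wU_congr {L M : ℕ → ℕ} {x : ℕ} {dl ul : List ℕ} (h : L x = M x) (h1 : ∀ y ∈ dl, L y = M y)
    (h2 : ∀ y ∈ ul, L y = M y) : wU L x dl ul = wU M x dl ul := by
  have e1 : (∃ y ∈ dl, L x < L y) ↔ ∃ y ∈ dl, M x < M y := by
    constructor
    · rintro ⟨y, hy, h3⟩; exact ⟨y, hy, by rw [← h, ← h1 y hy]; exact h3⟩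
    · rintro ⟨y, hy, h3⟩; exact ⟨y, hy, by rw [h, h1 y hy]; exact h3⟩
  have e2 : (∃ y ∈ ul, L x ≤ L y) ↔ ∃ y ∈ ul, M x ≤ M y := by
    constructor
    · rintro ⟨y, hy, h3⟩; exact ⟨y, hy, by rw [← h, ← h2 y hy]; exact h3⟩
    · rintro ⟨y, hy, h3⟩; exact ⟨y, hy, by rw [h, h2 y hy]; exact h3⟩
  unfold wU
  simp only [e1, e2]

lemma add_eq_of_notMem {L M : ℕ → ℕ} {s : Finset ℕ} {n x : ℕ} (hM : M ∈ s.piAntidiag n)
    (hx : x ∉ s) : L x = (L + M) x := by
  have : M x = 0 := by
    by_contra h
    exact hx ((mem_piAntidiag.1 hM).2 x h)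
  rw [Pi.add_apply, this, add_zero]

/-- THE MEANING OF A PROGRAM. -/
theorem sem_sum : ∀ (p : Prog), valid p = true → dsj p = true → ∀ (L : ℕ → ℕ) (b : ℕ),
    (∀ x ∈ asgs p, L x = 0) →
    sem p L b = ∑ M ∈ (asgs p).toFinset.piAntidiag b,
      (by classical exact if lbs p M then prodW p (L + M) else 0) := by
  classical
  intro p
  induction p with
  | nil =>
    intro _ _ L b _
    unfold sem
    rw [asgs, List.toFinset_nil, piAntidiag_empty]
    split_ifs with h
    · rw [sum_singleton, if_pos lbs_nil]; rfl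
    · rw [sum_empty]
  | asg x lb caps p ih =>
    intro hv hd L b hA
    simp only [valid, Bool.and_eq_true, Bool.not_eq_true'] at hv
    obtain ⟨⟨v1, v2⟩, v3⟩ := hv
    have v1' : x ∉ (asgs p).toFinset := by
      rw [List.mem_toFinset]; exact not_contains v1
    have hx0 : L x = 0 := hA x (by rw [asgs]; simp)
    rw [sem, asgs, List.toFinset_cons, sum_insert_anti v1']
    refine Finset.sum_congr rfl fun k _ => ?_
    have hA' : ∀ y ∈ asgs p, Function.update L x k y = 0 := by
      intro y hy
      have : y ≠ x := by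
        rintro rfl
        exact v1' (List.mem_toFinset.2 hy)
      rw [upd_ne this]
      exact hA y (by rw [asgs]; exact List.mem_cons_of_mem _ hy)
    by_cases hk : lb ≤ k
    · rw [if_pos hk, ih v3 hd _ _ hA']
      refine Finset.sum_congr rfl fun M hM => ?_
      have hMx : M x = 0 := by
        by_contra h
        exact v1' ((mem_piAntidiag.1 hM).2 x h)
      have e1 : lbs (Prog.asg x lb caps p) (fun t => M t + if t = x then k else 0) ↔ lbs p M := by
        rw [lbs_asg, if_pos rfl, hMx, Nat.zero_add]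
        constructor
        · rintro ⟨_, h⟩
          refine (lbs_congr p fun y hy => ?_).1 h
          have : y ≠ x := by
            rintro rfl
            exact v1' (List.mem_toFinset.2 hy)
          show M y + (if y = x then k else 0) = M y
          rw [if_neg this, Nat.add_zero]
        · intro h
          refine ⟨hk, (lbs_congr p fun y hy => ?_).2 h⟩
          have : y ≠ x := by
            rintro rfl
            exact v1' (List.mem_toFinset.2 hy)
          show M y + (if y = x then k else 0) = M y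
          rw [if_neg this, Nat.add_zero]
      have e2 : Function.update L x k + M = L + fun t => M t + if t = x then k else 0 := by
        funext y
        rw [Pi.add_apply, Pi.add_apply]
        by_cases hy : y = x
        · subst hy
          rw [Function.update_self, if_pos rfl, hx0, hMx]
          omega
        · rw [upd_ne hy, if_neg hy, Nat.add_zero]
      by_cases h : lbs p M
      · rw [if_pos h, if_pos (e1.2 h), prodW, e2]
      · rw [if_neg h, if_neg (fun h' => h (e1.1 h'))]
    · rw [if_neg hk, eq_comm]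
      refine Finset.sum_eq_zero fun M hM => ?_
      have hMx : M x = 0 := by
        by_contra h
        exact v1' ((mem_piAntidiag.1 hM).2 x h)
      rw [if_neg]
      rw [lbs_asg]
      rintro ⟨h, _⟩
      rw [if_pos rfl, hMx, Nat.zero_add] at h
      exact hk h
  | site x dl ul p ih =>
    intro hv hd L b hA
    rw [valid] at hv
    simp only [dsj, Bool.and_eq_true, Bool.not_eq_true'] at hd
    obtain ⟨⟨⟨d1, d2⟩, d3⟩, d4⟩ := hd
    rw [sem, ih hv d4 L b hA, mul_sum]
    refine Finset.sum_congr rfl fun M hM => ?_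
    have hM' : M ∈ (asgs p).toFinset.piAntidiag b := hM
    have e1 : wS L x dl ul = wS (L + M) x dl ul := by
      apply wS_congr
      · exact add_eq_of_notMem hM' (by rw [List.mem_toFinset]; exact not_contains d1)
      · intro y hy
        have h := List.all_eq_true.1 d2 y hy
        rw [Bool.not_eq_true'] at h
        exact add_eq_of_notMem hM' (by rw [List.mem_toFinset]; exact not_contains h)
      · intro y hy
        have h := List.all_eq_true.1 d3 y hy
        rw [Bool.not_eq_true'] at h
        exact add_eq_of_notMem hM' (by rw [List.mem_toFinset]; exact not_contains h)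
    rw [mul_ite, mul_zero, e1]
    rfl
  | low x dl ul p ih =>
    intro hv hd L b hA
    rw [valid] at hv
    simp only [dsj, Bool.and_eq_true, Bool.not_eq_true'] at hd
    obtain ⟨⟨⟨d1, d2⟩, d3⟩, d4⟩ := hd
    rw [sem, ih hv d4 L b hA, mul_sum]
    refine Finset.sum_congr rfl fun M hM => ?_
    have hM' : M ∈ (asgs p).toFinset.piAntidiag b := hM
    have e1 : wL L x dl ul = wL (L + M) x dl ul := by
      apply wL_congr
      · exact add_eq_of_notMem hM' (by rw [List.mem_toFinset]; exact not_contains d1)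
      · intro y hy
        have h := List.all_eq_true.1 d2 y hy
        rw [Bool.not_eq_true'] at h
        exact add_eq_of_notMem hM' (by rw [List.mem_toFinset]; exact not_contains h)
      · intro y hy
        have h := List.all_eq_true.1 d3 y hy
        rw [Bool.not_eq_true'] at h
        exact add_eq_of_notMem hM' (by rw [List.mem_toFinset]; exact not_contains h)
    rw [mul_ite, mul_zero, e1]
    rfl
  | upp x dl ul p ih =>
    intro hv hd L b hA
    rw [valid] at hv
    simp only [dsj, Bool.and_eq_true, Bool.not_eq_true'] at hd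
    obtain ⟨⟨⟨d1, d2⟩, d3⟩, d4⟩ := hd
    rw [sem, ih hv d4 L b hA, mul_sum]
    refine Finset.sum_congr rfl fun M hM => ?_
    have hM' : M ∈ (asgs p).toFinset.piAntidiag b := hM
    have e1 : wU L x dl ul = wU (L + M) x dl ul := by
      apply wU_congr
      · exact add_eq_of_notMem hM' (by rw [List.mem_toFinset]; exact not_contains d1)
      · intro y hy
        have h := List.all_eq_true.1 d2 y hy
        rw [Bool.not_eq_true'] at h
        exact add_eq_of_notMem hM' (by rw [List.mem_toFinset]; exact not_contains h)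
      · intro y hy
        have h := List.all_eq_true.1 d3 y hy
        rw [Bool.not_eq_true'] at h
        exact add_eq_of_notMem hM' (by rw [List.mem_toFinset]; exact not_contains h)
    rw [mul_ite, mul_zero, e1]
    rfl
  | skp xs k q p _ ih =>
    intro hv hd L b hA
    simp only [valid, Bool.and_eq_true] at hv
    obtain ⟨⟨_, _⟩, v3⟩ := hv
    exact ih v3 hd L b hA

/-- the value of a program as a sum over configurations -/
theorem ev_sum {m : ℕ} (hm : m ≤ 2) {p : Prog} (hv : valid p = true) (hd : dsj p = true) {n : ℕ}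
    (hn : n < 32) :
    ev m p 0 n 0 0 0 = PowerSeries.coeff m (∑ M ∈ (asgs p).toFinset.piAntidiag n,
      (by classical exact if lbs p M then prodW p M else 0) : A) := by
  classical
  rw [ev_eq hm p hv (fun _ => 0) 0 n 0 0 0 (fun x => by rw [dg_def, Nat.zero_div]) (fun _ _ => rfl)
    hn (Nat.zero_le m), pow_zero, pow_zero, pow_zero, one_mul, one_mul, one_mul,
    sem_sum p hv hd _ _ (fun _ _ => rfl)]
  congr 1
  refine Finset.sum_congr rfl fun M _ => ?_
  have : (fun _ => 0 : ℕ → ℕ) + M = M := by
    funext x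
    rw [Pi.add_apply, Nat.zero_add]
  rw [this]

end Pool.Agent.GaussPoset.Win.Ev
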