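import Pool.Agent.W_448ev_h61.EvD
import Pool.Agent.W_448co_h5.FirstDiff

/-!
# Verified evaluator, part E: the term of a configuration is a product of local weights
-/

namespace Pool.Agent.GaussPoset.Win.Ev

set_option linter.unusedSectionVars false

open Finset

universe u

variable {P : Type u} [Fintype P] [PartialOrder P] [DecidableEq P] {r i : ℕ}
variable {C S : Finset P} {e : P → ℕ}

open Classical in
/-- local weight -/
noncomputable def wP (i : ℕ) (e : P → ℕ) (z : P) : A :=
  if i < lev z then
    (if FD e z then (if GU e z then 0 else xx) else (if GU e z then 1 else dd))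
  else if lev z < i then
    (if FU e z then (if GD e z then 0 else xi) else (if GD e z then 1 else xi * dd))
  else (if FD e z then (if FU e z then 0 else xx) else (if FU e z then 1 else dd))

lemma prod_two {ι : Type*} (s : Finset ι) (p q : ι → Prop) [DecidablePred p] [DecidablePred q]
    (x y : A) :
    ∏ z ∈ s, (if p z then (if q z then 0 else x) else (if q z then 1 else y)) =
      if ∃ z ∈ s, p z ∧ q z then 0 else
        x ^ (s.filter p).card * y ^ (s.filter (fun z => ¬ p z ∧ ¬ q z)).card := by
  classical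
  induction s using Finset.induction_on with
  | empty => simp
  | insert a s ha ih =>
    rw [Finset.prod_insert ha, ih]
    have f1 : p a → ((insert a s).filter p).card = (s.filter p).card + 1 := by
      intro h
      rw [filter_insert, if_pos h, card_insert_of_notMem (fun h => ha (mem_filter.1 h).1)]
    have f1' : ¬ p a → ((insert a s).filter p).card = (s.filter p).card := by
      intro h
      rw [filter_insert, if_neg h]
    have f2 : (¬ p a ∧ ¬ q a) → ((insert a s).filter (fun z => ¬ p z ∧ ¬ q z)).card =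
        (s.filter (fun z => ¬ p z ∧ ¬ q z)).card + 1 := by
      intro h
      rw [filter_insert, if_pos h, card_insert_of_notMem (fun h => ha (mem_filter.1 h).1)]
    have f2' : ¬ (¬ p a ∧ ¬ q a) → ((insert a s).filter (fun z => ¬ p z ∧ ¬ q z)).card =
        (s.filter (fun z => ¬ p z ∧ ¬ q z)).card := by
      intro h
      rw [filter_insert, if_neg h]
    have hh : ¬ (p a ∧ q a) → ((∃ z ∈ insert a s, p z ∧ q z) ↔ ∃ z ∈ s, p z ∧ q z) := by
      intro h0
      constructor
      · rintro ⟨z, hz, h4⟩
        rcases mem_insert.1 hz with rfl | h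
        · exact absurd h4 h0
        · exact ⟨z, h, h4⟩
      · rintro ⟨z, hz, h4⟩
        exact ⟨z, mem_insert_of_mem hz, h4⟩
    by_cases h1 : p a
    · by_cases h2 : q a
      · have h3 : ∃ z ∈ insert a s, p z ∧ q z := ⟨a, mem_insert_self _ _, h1, h2⟩
        rw [if_pos h1, if_pos h2, zero_mul, if_pos h3]
      · rw [if_pos h1, if_neg h2, f1 h1, f2' (fun h => h.1 h1)]
        by_cases h3 : ∃ z ∈ s, p z ∧ q z
        · rw [if_pos h3, if_pos ((hh (fun h => h2 h.2)).2 h3), mul_zero]
        · rw [if_neg h3, if_neg (fun h => h3 ((hh (fun h => h2 h.2)).1 h)), pow_succ]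
          ring
    · by_cases h2 : q a
      · rw [if_neg h1, if_pos h2, one_mul, f1' h1, f2' (fun h => h.2 h2)]
        by_cases h3 : ∃ z ∈ s, p z ∧ q z
        · rw [if_pos h3, if_pos ((hh (fun h => h1 h.1)).2 h3)]
        · rw [if_neg h3, if_neg (fun h => h3 ((hh (fun h => h1 h.1)).1 h))]
      · rw [if_neg h1, if_neg h2, f1' h1, f2 ⟨h1, h2⟩]
        by_cases h3 : ∃ z ∈ s, p z ∧ q z
        · rw [if_pos h3, if_pos ((hh (fun h => h1 h.1)).2 h3), mul_zero]
        · rw [if_neg h3, if_neg (fun h => h3 ((hh (fun h => h1 h.1)).1 h)), pow_succ]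
          ring

/-- THE TERM OF A CONFIGURATION AS A PRODUCT. -/
theorem tC_prod (H : Gr P r) (hir : i ≤ r) (hC : Part i C) (he : Spt C e) :
    tC i C e = ∏ z ∈ C, wP i e z := by
  classical
  -- the three parts
  have hL : ∏ z ∈ C.filter (fun z => i < lev z), wP i e z =
      if AdmL i e then xx ^ aL i e * dd ^ pL i e else 0 := by
    have e1 : ∏ z ∈ C.filter (fun z => i < lev z), wP i e z =
        ∏ z ∈ C.filter (fun z => i < lev z),
          (if FD e z then (if GU e z then 0 else xx) else (if GU e z then 1 else dd)) := by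
      refine prod_congr rfl fun z hz => ?_
      unfold wP
      rw [if_pos (mem_filter.1 hz).2]
    rw [e1, prod_two]
    by_cases hA : AdmL i e
    · rw [if_pos hA, if_neg]
      · congr 2
        · unfold aL
          congr 1
          ext z
          simp only [mem_filter, mem_univ, true_and]
          constructor
          · rintro ⟨⟨_, h1⟩, h2⟩; exact ⟨h1, h2⟩
          · rintro ⟨h1, h2⟩; exact ⟨⟨FD_mem hC he h2, h1⟩, h2⟩
        · unfold pL
          congr 1
          ext z
          simp only [mem_filter, mem_univ, true_and]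
          constructor
          · rintro ⟨⟨_, h1⟩, h2, h3⟩; exact ⟨h1, h2, h3⟩
          · rintro ⟨h1, h2, h3⟩; exact ⟨⟨free_low_mem H he h1 h3, h1⟩, h2, h3⟩
      · rintro ⟨z, hz, h1⟩
        exact hA z (mem_filter.1 hz).2 h1
    · rw [if_neg hA, if_pos]
      unfold AdmL at hA
      push Not at hA
      obtain ⟨z, h1, h2⟩ := hA
      exact ⟨z, mem_filter.2 ⟨FD_mem hC he h2.1, h1⟩, h2⟩
  have hU : ∏ z ∈ C.filter (fun z => lev z < i), wP i e z =
      if AdmU i e then xi ^ (aU i e + pU i e) * dd ^ pU i e else 0 := by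
    have e1 : ∏ z ∈ C.filter (fun z => lev z < i), wP i e z =
        ∏ z ∈ C.filter (fun z => lev z < i),
          (if FU e z then (if GD e z then 0 else xi) else (if GD e z then 1 else xi * dd)) := by
      refine prod_congr rfl fun z hz => ?_
      have := (mem_filter.1 hz).2
      unfold wP
      rw [if_neg (by omega), if_pos this]
    rw [e1, prod_two]
    by_cases hA : AdmU i e
    · rw [if_pos hA, if_neg]
      · have g1 : ((C.filter (fun z => lev z < i)).filter (fun z => FU e z)).card = aU i e := by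
          unfold aU
          congr 1
          ext z
          simp only [mem_filter, mem_univ, true_and]
          constructor
          · rintro ⟨⟨_, h1⟩, h2⟩; exact ⟨h1, h2⟩
          · rintro ⟨h1, h2⟩; exact ⟨⟨FU_mem H hC he h1.le h2, h1⟩, h2⟩
        have g2 : ((C.filter (fun z => lev z < i)).filter (fun z => ¬ FU e z ∧ ¬ GD e z)).card =
            pU i e := by
          unfold pU
          congr 1
          ext z
          simp only [mem_filter, mem_univ, true_and]
          constructor
          · rintro ⟨⟨_, h1⟩, h2, h3⟩; exact ⟨h1, h2, h3⟩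
          · rintro ⟨h1, h2, h3⟩; exact ⟨⟨free_up_mem H hir he h1 h3, h1⟩, h2, h3⟩
        rw [g1, g2, mul_pow, pow_add]
        ring
      · rintro ⟨z, hz, h1⟩
        exact hA z (mem_filter.1 hz).2 h1
    · rw [if_neg hA, if_pos]
      unfold AdmU at hA
      push Not at hA
      obtain ⟨z, h1, h2⟩ := hA
      exact ⟨z, mem_filter.2 ⟨FU_mem H hC he h1.le h2.1, h1⟩, h2⟩
  have hS : ∏ z ∈ st i C, wP i e z =
      if Disjoint (AL i e) (AU i e) then
        xx ^ (AL i e).card * dd ^ ((st i C).card - (AL i e).card - (AU i e).card) else 0 := by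
    have e1 : ∏ z ∈ st i C, wP i e z =
        ∏ z ∈ st i C,
          (if FD e z then (if FU e z then 0 else xx) else (if FU e z then 1 else dd)) := by
      refine prod_congr rfl fun z hz => ?_
      have := (mem_st.1 hz).2
      unfold wP
      rw [if_neg (by omega), if_neg (by omega)]
    have g1 : (st i C).filter (fun z => FD e z) = AL i e := by
      ext z
      rw [mem_filter, NormD_mem_AL]
      constructor
      · rintro ⟨h1, h2⟩; exact ⟨(mem_st.1 h1).2, h2⟩
      · rintro ⟨h1, h2⟩; exact ⟨mem_st.2 ⟨FD_mem hC he h2, h1⟩, h2⟩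
    rw [e1, prod_two, g1]
    by_cases hD : Disjoint (AL i e) (AU i e)
    · rw [if_pos hD, if_neg]
      · congr 2
        have g2 : (st i C).filter (fun z => ¬ FD e z ∧ ¬ FU e z) =
            (st i C) \ (AL i e ∪ AU i e) := by
          ext z
          rw [mem_filter, mem_sdiff, mem_union, NormD_mem_AL, NormD_mem_AU, mem_st]
          constructor
          · rintro ⟨⟨h1, h2⟩, h3, h4⟩
            refine ⟨⟨h1, h2⟩, ?_⟩
            rintro (h5 | h5)
            · exact h3 h5.2
            · exact h4 h5.2
          · rintro ⟨⟨h1, h2⟩, h3⟩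
            exact ⟨⟨h1, h2⟩, fun h4 => h3 (Or.inl ⟨h2, h4⟩), fun h4 => h3 (Or.inr ⟨h2, h4⟩)⟩
        have h5 : AL i e ∪ AU i e ⊆ st i C := union_subset (AL_sub hC he) (AU_sub H hC he)
        rw [g2, card_sdiff_of_subset h5, card_union_of_disjoint hD]
        omega
      · rintro ⟨z, hz, h1, h2⟩
        have h3 := (mem_st.1 hz).2
        exact disjoint_left.1 hD ((NormD_mem_AL i e z).2 ⟨h3, h1⟩) ((NormD_mem_AU i e z).2 ⟨h3, h2⟩)
    · rw [if_neg hD, if_pos]
      rw [not_disjoint_iff] at hD
      obtain ⟨z, h1, h2⟩ := hD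
      exact ⟨z, AL_sub hC he h1, ((NormD_mem_AL i e z).1 h1).2, ((NormD_mem_AU i e z).1 h2).2⟩
  have hsplit : ∏ z ∈ C, wP i e z = (∏ z ∈ C.filter (fun z => i < lev z), wP i e z) *
      ((∏ z ∈ C.filter (fun z => lev z < i), wP i e z) * ∏ z ∈ st i C, wP i e z) := by
    rw [← prod_filter_mul_prod_filter_not C (fun z => i < lev z)]
    congr 1
    rw [← prod_filter_mul_prod_filter_not (C.filter (fun z => ¬ i < lev z)) (fun z => lev z < i)]
    congr 1
    · apply prod_congr _ fun _ _ => rfl
      ext z
      simp only [mem_filter]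
      constructor
      · rintro ⟨⟨h1, _⟩, h2⟩; exact ⟨h1, h2⟩
      · rintro ⟨h1, h2⟩; exact ⟨⟨h1, by omega⟩, h2⟩
    · apply prod_congr _ fun _ _ => rfl
      ext z
      rw [mem_st]
      simp only [mem_filter]
      constructor
      · rintro ⟨⟨h1, h2⟩, h3⟩; exact ⟨h1, by omega⟩
      · rintro ⟨h1, h2⟩; exact ⟨⟨h1, by omega⟩, by omega⟩
  rw [hsplit, hL, hU, hS]
  unfold tC cw
  by_cases hD : Disjoint (AL i e) (AU i e)
  · rw [if_pos hD, if_pos hD]
    by_cases hA : AdmL i e
    · by_cases hB : AdmU i e
      · rw [if_pos ⟨hA, hB⟩, if_pos hA, if_pos hB, pow_add dd]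
        ring
      · rw [if_neg (fun h => hB h.2), if_neg hB]
        ring
    · rw [if_neg (fun h => hA h.1), if_neg hA]
      ring
  · rw [if_neg hD, if_neg hD, mul_zero, mul_zero]

/-- only the elements of `S` matter if `e` is supported on the closed set `S` -/
theorem prod_restrict (H : Gr P r) (hir : i ≤ r) (hS : S ⊆ C) (hst : st i C ⊆ S)
    (hup : ∀ x ∈ S, i < lev x → ∀ y, x ⋖ y → y ∈ S)
    (hdn : ∀ x ∈ S, lev x < i → ∀ y, y ⋖ x → y ∈ S) (he : Spt S e) :
    ∏ z ∈ C, wP i e z = ∏ z ∈ S, wP i e z := by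
  classical
  symm
  apply prod_subset hS
  intro z hz hzS
  have hez : e z = 0 := he z hzS
  have h1 : lev z ≠ i := fun h => hzS (hst (mem_st.2 ⟨hz, h⟩))
  unfold wP
  rcases Nat.lt_or_gt_of_ne h1 with h2 | h2
  · rw [if_neg (by omega), if_pos h2]
    have h3 : ¬ FU e z := by
      rintro ⟨y, hy, hlt⟩
      have hyS : y ∈ S := by
        by_contra h
        rw [he y h] at hlt
        omega
      have hl := (H.covBy_iff.1 hy).2
      exact hzS (hdn y hyS (by omega) z hy)
    have h4 : GD e z := by
      obtain ⟨y, hy⟩ := dc_nonempty H (x := z) (by omega)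
      exact ⟨y, mem_dc.1 hy, by rw [hez]; exact Nat.zero_le _⟩
    rw [if_neg h3, if_pos h4]
  · rw [if_pos h2]
    have h3 : ¬ FD e z := by
      rintro ⟨y, hy, hlt⟩
      have hyS : y ∈ S := by
        by_contra h
        rw [he y h] at hlt
        omega
      have hl := (H.covBy_iff.1 hy).2
      exact hzS (hup y hyS (by omega) z hy)
    have h4 : GU e z := by
      obtain ⟨y, hy⟩ := uc_nonempty H (x := z) (by omega)
      exact ⟨y, mem_uc.1 hy, by rw [hez]; exact Nat.zero_le _⟩
    rw [if_neg h3, if_pos h4]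

/-- energy above an excited upper element -/
lemma up_energy (H : Gr P r) (hir : i ≤ r) (hB : AdmU i e) : ∀ (k : ℕ) (u : P), lev u + (k + 1) = i →
    0 < e u → k + 1 ≤ ∑ y ∈ univ.filter (fun y => lev u ≤ lev y ∧ lev y < i), e y := by
  classical
  intro k
  induction k with
  | zero =>
    intro u hu he
    have h1 : e u ≤ ∑ y ∈ univ.filter (fun y => lev u ≤ lev y ∧ lev y < i), e y :=
      single_le_sum (f := e) (fun _ _ => Nat.zero_le _) (mem_filter.2 ⟨mem_univ _, le_rfl, by omega⟩)
    omega
  | succ k ih =>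
    intro u hu he
    obtain ⟨y, hy⟩ := dc_nonempty H (x := u) (by omega)
    have hy' := mem_dc.1 hy
    have hl := (H.covBy_iff.1 hy').2
    have h1 := ih y (by omega) (pos_dn H hir hB (by omega) he hy')
    have h2 : (univ.filter (fun z : P => lev y ≤ lev z ∧ lev z < i)) ∪ {u} ⊆
        univ.filter (fun z : P => lev u ≤ lev z ∧ lev z < i) := by
      intro z hz
      rw [mem_union, mem_filter, mem_singleton] at hz
      rw [mem_filter]
      rcases hz with ⟨_, h3, h4⟩ | rfl
      · exact ⟨mem_univ _, by omega, h4⟩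
      · exact ⟨mem_univ _, le_rfl, by omega⟩
    have h3 : Disjoint (univ.filter (fun z : P => lev y ≤ lev z ∧ lev z < i)) {u} := by
      rw [disjoint_singleton_right, mem_filter]
      rintro ⟨_, h4, _⟩
      omega
    calc k + 1 + 1 ≤ (∑ z ∈ univ.filter (fun z : P => lev y ≤ lev z ∧ lev z < i), e z) + e u := by
          omega
      _ = ∑ z ∈ (univ.filter (fun z : P => lev y ≤ lev z ∧ lev z < i)) ∪ {u}, e z := by
          rw [sum_union h3, sum_singleton]
      _ ≤ _ := sum_le_sum_of_subset h2

lemma adm_of_tC (h : tC i C e ≠ 0) : AdmL i e ∧ AdmU i e := by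
  classical
  by_contra h1
  apply h
  unfold tC cw
  rw [if_neg h1, zero_mul, ite_self]

/-- a configuration with a nonzero term does not reach farther than its energy -/
theorem far_zero (H : Gr P r) (hir : i ≤ r) {n : ℕ} (h : tC i C e ≠ 0) (hn : ∑ y, e y ≤ n) {z : P}
    (hz : i + n < lev z ∨ lev z + n < i) : e z = 0 := by
  classical
  obtain ⟨hA, hB⟩ := adm_of_tC h
  by_contra he
  have he' : 0 < e z := Nat.pos_of_ne_zero he
  rcases hz with hz | hz
  · have h1 := card_cone_ge (i := i) (z := z)
    have h2 := card_cone_le H hA he'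
    omega
  · obtain ⟨k, hk⟩ : ∃ k, lev z + (k + 1) = i := ⟨i - lev z - 1, by omega⟩
    have h1 := up_energy H hir hB k z hk he'
    have h2 : ∑ y ∈ univ.filter (fun y => lev z ≤ lev y ∧ lev y < i), e y ≤ ∑ y, e y :=
      sum_le_sum_of_subset (filter_subset _ _)
    omega

end Pool.Agent.GaussPoset.Win.Ev
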