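import Pool.Agent.W_448ev_h61.EvE

/-!
# Verified evaluator, part F: from codes to elements of the poset
-/

namespace Pool.Agent.GaussPoset.Win.Ev

set_option linter.unusedSectionVars false

open Finset

universe u

variable {P : Type u} [Fintype P] [PartialOrder P] [DecidableEq P] {r i : ℕ}
variable {C S : Finset P} {e : P → ℕ} {pt : ℕ → P} {I : Finset ℕ}

/-- `pt` codes the elements of the closed subset `S` of `C` by the numbers of `I` -/
structure Chart (i : ℕ) (C S : Finset P) (pt : ℕ → P) (I : Finset ℕ) : Prop where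
  sub : S ⊆ C
  st_sub : st i C ⊆ S
  up : ∀ x ∈ S, i < lev x → ∀ y, x ⋖ y → y ∈ S
  dn : ∀ x ∈ S, lev x < i → ∀ y, y ⋖ x → y ∈ S
  maps : ∀ c ∈ I, pt c ∈ S
  inj : ∀ c ∈ I, ∀ d ∈ I, pt c = pt d → c = d
  surj : ∀ x ∈ S, ∃ c ∈ I, pt c = x

/-- `l` lists the lower covers of `x` in `S` -/
def nbD (S : Finset P) (pt : ℕ → P) (I : Finset ℕ) (x : ℕ) (l : List ℕ) : Prop :=
  (∀ y ∈ l, y ∈ I ∧ pt y ⋖ pt x) ∧ ∀ z ∈ S, z ⋖ pt x → ∃ y ∈ l, pt y = z

/-- `l` lists the upper covers of `x` in `S` -/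
def nbU (S : Finset P) (pt : ℕ → P) (I : Finset ℕ) (x : ℕ) (l : List ℕ) : Prop :=
  (∀ y ∈ l, y ∈ I ∧ pt x ⋖ pt y) ∧ ∀ z ∈ S, pt x ⋖ z → ∃ y ∈ l, pt y = z

/-- the checks of the program fit to the poset -/
def fits (i : ℕ) (S : Finset P) (pt : ℕ → P) (I : Finset ℕ) : Prog → Prop
  | Prog.nil => True
  | Prog.asg _ _ _ p => fits i S pt I p
  | Prog.site x dl ul p => (x ∈ I ∧ lev (pt x) = i ∧ nbD S pt I x dl ∧ nbU S pt I x ul) ∧
      fits i S pt I p
  | Prog.low x o inn p => (x ∈ I ∧ i < lev (pt x) ∧ nbD S pt I x o ∧ nbU S pt I x inn) ∧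
      fits i S pt I p
  | Prog.upp x o inn p => (x ∈ I ∧ lev (pt x) < i ∧ nbU S pt I x o ∧ nbD S pt I x inn) ∧
      fits i S pt I p
  | Prog.skp _ _ _ p => fits i S pt I p

/-- the checked elements -/
def chks : Prog → List ℕ
  | Prog.nil => []
  | Prog.asg _ _ _ p => chks p
  | Prog.site x _ _ p => x :: chks p
  | Prog.low x _ _ p => x :: chks p
  | Prog.upp x _ _ p => x :: chks p
  | Prog.skp _ _ _ p => chks p

/-- labels of the codes -/
def jM (pt : ℕ → P) (I : Finset ℕ) (e : P → ℕ) : ℕ → ℕ := fun c => if c ∈ I then e (pt c) else 0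

lemma jM_of_mem {c : ℕ} (h : c ∈ I) : jM pt I e c = e (pt c) := if_pos h

section nb

variable (he : Spt S e) {x : ℕ} (hx : x ∈ I) {l : List ℕ}

include he hx

lemma gt_iff_FD (h : nbD S pt I x l) :
    (∃ y ∈ l, jM pt I e x < jM pt I e y) ↔ FD e (pt x) := by
  constructor
  · rintro ⟨y, hy, h1⟩
    obtain ⟨h2, h3⟩ := h.1 y hy
    rw [jM_of_mem hx, jM_of_mem h2] at h1
    exact ⟨pt y, h3, h1⟩
  · rintro ⟨z, hz, h1⟩
    have hzS : z ∈ S := by
      by_contra h2
      rw [he z h2] at h1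
      omega
    obtain ⟨y, hy, rfl⟩ := h.2 z hzS hz
    refine ⟨y, hy, ?_⟩
    rw [jM_of_mem hx, jM_of_mem (h.1 y hy).1]
    exact h1

lemma gt_iff_FU (h : nbU S pt I x l) :
    (∃ y ∈ l, jM pt I e x < jM pt I e y) ↔ FU e (pt x) := by
  constructor
  · rintro ⟨y, hy, h1⟩
    obtain ⟨h2, h3⟩ := h.1 y hy
    rw [jM_of_mem hx, jM_of_mem h2] at h1
    exact ⟨pt y, h3, h1⟩
  · rintro ⟨z, hz, h1⟩
    have hzS : z ∈ S := by
      by_contra h2
      rw [he z h2] at h1
      omega
    obtain ⟨y, hy, rfl⟩ := h.2 z hzS hz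
    refine ⟨y, hy, ?_⟩
    rw [jM_of_mem hx, jM_of_mem (h.1 y hy).1]
    exact h1

lemma ge_iff_GU (h : nbU S pt I x l) (hcl : ∀ y, pt x ⋖ y → y ∈ S) :
    (∃ y ∈ l, jM pt I e x ≤ jM pt I e y) ↔ GU e (pt x) := by
  constructor
  · rintro ⟨y, hy, h1⟩
    obtain ⟨h2, h3⟩ := h.1 y hy
    rw [jM_of_mem hx, jM_of_mem h2] at h1
    exact ⟨pt y, h3, h1⟩
  · rintro ⟨z, hz, h1⟩
    obtain ⟨y, hy, rfl⟩ := h.2 z (hcl z hz) hz
    refine ⟨y, hy, ?_⟩
    rw [jM_of_mem hx, jM_of_mem (h.1 y hy).1]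
    exact h1

lemma ge_iff_GD (h : nbD S pt I x l) (hcl : ∀ y, y ⋖ pt x → y ∈ S) :
    (∃ y ∈ l, jM pt I e x ≤ jM pt I e y) ↔ GD e (pt x) := by
  constructor
  · rintro ⟨y, hy, h1⟩
    obtain ⟨h2, h3⟩ := h.1 y hy
    rw [jM_of_mem hx, jM_of_mem h2] at h1
    exact ⟨pt y, h3, h1⟩
  · rintro ⟨z, hz, h1⟩
    obtain ⟨y, hy, rfl⟩ := h.2 z (hcl z hz) hz
    refine ⟨y, hy, ?_⟩
    rw [jM_of_mem hx, jM_of_mem (h.1 y hy).1]
    exact h1

end nb

/-- the weights of a program are the local weights -/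
theorem prodW_eq (hc : Chart i C S pt I) (he : Spt S e) : ∀ (p : Prog), fits i S pt I p →
    prodW p (jM pt I e) = ((chks p).map (fun c => wP i e (pt c))).prod := by
  classical
  intro p
  induction p with
  | nil => intro _; rfl
  | asg x lb caps p ih => intro h; exact ih h
  | skp xs k q p _ ih => intro h; exact ih h
  | site x dl ul p ih =>
    rintro ⟨⟨h1, h2, h3, h4⟩, h5⟩
    rw [prodW, ih h5, chks, List.map_cons, List.prod_cons]
    congr 1
    have e1 : wP i e (pt x) = (if FD e (pt x) then (if FU e (pt x) then 0 else xx)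
        else (if FU e (pt x) then 1 else dd)) := by
      unfold wP
      rw [if_neg (by omega), if_neg (by omega)]
    rw [e1]
    unfold wS
    simp only [gt_iff_FD he h1 h3, gt_iff_FU he h1 h4]
  | low x o inn p ih =>
    rintro ⟨⟨h1, h2, h3, h4⟩, h5⟩
    rw [prodW, ih h5, chks, List.map_cons, List.prod_cons]
    congr 1
    have e1 : wP i e (pt x) = (if FD e (pt x) then (if GU e (pt x) then 0 else xx)
        else (if GU e (pt x) then 1 else dd)) := by
      unfold wP
      rw [if_pos h2]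
    rw [e1]
    unfold wL
    simp only [gt_iff_FD he h1 h3, ge_iff_GU he h1 h4 (fun y hy => hc.up _ (hc.maps x h1) h2 y hy)]
  | upp x o inn p ih =>
    rintro ⟨⟨h1, h2, h3, h4⟩, h5⟩
    rw [prodW, ih h5, chks, List.map_cons, List.prod_cons]
    congr 1
    have e1 : wP i e (pt x) = (if FU e (pt x) then (if GD e (pt x) then 0 else xi)
        else (if GD e (pt x) then 1 else xi * dd)) := by
      unfold wP
      rw [if_neg (by omega), if_pos h2]
    rw [e1]
    unfold wU
    simp only [gt_iff_FU he h1 h3, ge_iff_GD he h1 h4 (fun y hy => hc.dn _ (hc.maps x h1) h2 y hy)]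

/-- reindexing -/
theorem sum_reindex (hc : Chart i C S pt I) (n : ℕ) (G : (ℕ → ℕ) → A) :
    ∑ M ∈ I.piAntidiag n, G M = ∑ e ∈ S.piAntidiag n, G (jM pt I e) := by
  classical
  have hval : ∀ (M : ℕ → ℕ) (c : ℕ), c ∈ I →
      ∑ d ∈ I, (if pt d = pt c then M d else 0) = M c := by
    intro M c hcI
    rw [Finset.sum_eq_single c]
    · rw [if_pos rfl]
    · intro d hd hne
      rw [if_neg (fun h => hne (hc.inj d hd c hcI h))]
    · intro h; exact absurd hcI h
  have himg : S = I.image pt := by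
    ext x
    rw [mem_image]
    constructor
    · intro hx
      obtain ⟨c, h1, h2⟩ := hc.surj x hx
      exact ⟨c, h1, h2⟩
    · rintro ⟨c, h1, rfl⟩
      exact hc.maps c h1
  have hsumS : ∀ f : P → ℕ, ∑ x ∈ S, f x = ∑ c ∈ I, f (pt c) := by
    intro f
    rw [himg, Finset.sum_image (fun c h1 d h2 h => hc.inj c h1 d h2 h)]
  refine (Finset.sum_bij' (fun e _ => jM pt I e)
    (fun M _ => fun z => ∑ c ∈ I, if pt c = z then M c else 0) ?_ ?_ ?_ ?_ ?_).symm
  · intro e he
    rw [mem_piAntidiag] at he ⊢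
    obtain ⟨h1, h2⟩ := he
    constructor
    · rw [← h1, hsumS]
      exact Finset.sum_congr rfl fun c hcI => jM_of_mem hcI
    · intro c hcne
      by_contra h
      exact hcne (if_neg h)
  · intro M hM
    rw [mem_piAntidiag] at hM ⊢
    obtain ⟨h1, h2⟩ := hM
    constructor
    · rw [hsumS, ← h1]
      exact Finset.sum_congr rfl fun c hcI => (hval M c hcI :)
    · intro z hz
      obtain ⟨c, hcI, hne⟩ := Finset.exists_ne_zero_of_sum_ne_zero hz
      have : pt c = z := by
        by_contra h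
        exact hne (if_neg h)
      rw [← this]
      exact hc.maps c hcI
  · intro e he
    rw [mem_piAntidiag] at he
    obtain ⟨h1, h2⟩ := he
    funext z
    by_cases hz : z ∈ S
    · obtain ⟨c, hcI, rfl⟩ := hc.surj z hz
      show ∑ d ∈ I, (if pt d = pt c then jM pt I e d else 0) = e (pt c)
      rw [hval _ c hcI, jM_of_mem hcI]
    · have h3 : e z = 0 := by
        by_contra h
        exact hz (h2 z h)
      show ∑ d ∈ I, (if pt d = z then jM pt I e d else 0) = e z
      rw [h3]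
      refine Finset.sum_eq_zero fun d hd => ?_
      rw [if_neg]
      rintro rfl
      exact hz (hc.maps d hd)
  · intro M hM
    rw [mem_piAntidiag] at hM
    funext c
    unfold jM
    by_cases hcI : c ∈ I
    · rw [if_pos hcI]
      exact hval M c hcI
    · rw [if_neg hcI]
      by_contra h
      exact hcI (hM.2 c (Ne.symm h))
  · intro e he
    rfl

/-- THE EVALUATOR COMPUTES SUMS OVER CONFIGURATIONS. -/
theorem ev_chart (H : Gr P r) (hir : i ≤ r) (hC : Part i C) (hc : Chart i C S pt I) {m : ℕ}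
    (hm : m ≤ 2) {p : Prog} (hv : valid p = true) (hd : dsj p = true) {n : ℕ} (hn : n < 32)
    (hf : fits i S pt I p) (hI : (asgs p).toFinset = I) (hI2 : (chks p).Perm (asgs p))
    (hnd : (asgs p).Nodup) :
    ev m p 0 n 0 0 0 = PowerSeries.coeff m (∑ e ∈ S.piAntidiag n,
      (by classical exact if lbs p (jM pt I e) then tC i C e else 0) : A) := by
  classical
  rw [ev_sum hm hv hd hn, hI, sum_reindex hc n]
  congr 1
  refine Finset.sum_congr rfl fun e he => ?_
  have heS : Spt S e := spt_of_mem he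
  have heC : Spt C e := fun x hx => heS x (fun h => hx (hc.sub h))
  have e1 : prodW p (jM pt I e) = tC i C e := by
    rw [prodW_eq hc heS p hf, tC_prod H hir hC heC, prod_restrict H hir hc.sub hc.st_sub hc.up hc.dn heS]
    rw [(hI2.map (fun c => wP i e (pt c))).prod_eq]
    have e2 : ((asgs p).map (fun c => wP i e (pt c))).prod = ∏ c ∈ (asgs p).toFinset, wP i e (pt c) :=
      (List.prod_toFinset _ hnd).symm
    rw [e2, hI]
    have himg : S = I.image pt := by
      ext x
      rw [mem_image]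
      constructor
      · intro hx
        obtain ⟨c, h1, h2⟩ := hc.surj x hx
        exact ⟨c, h1, h2⟩
      · rintro ⟨c, h1, rfl⟩
        exact hc.maps c h1
    rw [himg, Finset.prod_image (fun c h1 d h2 h => hc.inj c h1 d h2 h)]
  rw [e1]

end Pool.Agent.GaussPoset.Win.Ev
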