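import Pool.Agent.W_448ev_h61.EvA

namespace Pool.Agent.GaussPoset.Win.Ev

/-- code of the element `a` of row `r` -/
def cd (r a : ℕ) : ℕ := r * 32 + a

/-- upper neighbours of `(r, a)` in the strip with rows `[lo, hi]` -/
def upN (lo hi : List ℕ) (r a : ℕ) : List ℕ :=
  match r with
  | 0 => []
  | r + 1 =>
    (bif Nat.ble (lo.getD r 0 + 1) a && Nat.ble a (hi.getD r 0 + 1) then [cd r (a - 1)] else []) ++
    (bif Nat.ble (lo.getD r 0) a && Nat.ble a (hi.getD r 0) then [cd r a] else [])

/-- lower neighbours of `(r, a)` in the strip with `R` rows `[lo, hi]` -/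
def dnN (lo hi : List ℕ) (R r a : ℕ) : List ℕ :=
  bif Nat.ble R (r + 1) then [] else
    (bif Nat.ble (lo.getD (r + 1) 0) a && Nat.ble a (hi.getD (r + 1) 0) then [cd (r + 1) a] else []) ++
    (bif Nat.ble (lo.getD (r + 1) 0) (a + 1) && Nat.ble (a + 1) (hi.getD (r + 1) 0) then
      [cd (r + 1) (a + 1)] else [])

/-- row `r` -/
def rowN (lo hi : List ℕ) (r : ℕ) : List ℕ :=
  (List.range (hi.getD r 0 + 1 - lo.getD r 0)).map (fun k => lo.getD r 0 + k)

/-- assignments of row `r` of the lower part -/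
def asgL (lo hi : List ℕ) (r : ℕ) (p : Prog) : Prog :=
  (rowN lo hi r).foldr (fun a p => Prog.asg (cd r a) 0
    ((upN lo hi r a).map (fun y => (y, upN lo hi (y / 32) (y % 32)))) p) p

/-- assignments of row `r` of the upper part -/
def asgU (lo hi : List ℕ) (R r : ℕ) (p : Prog) : Prog :=
  (rowN lo hi r).foldr (fun a p => Prog.asg (cd r a) 0
    ((dnN lo hi R r a).map (fun y => (y, dnN lo hi R (y / 32) (y % 32)))) p) p

/-- checks of row `r` of the lower part -/
def chkL (lo hi : List ℕ) (R r : ℕ) (p : Prog) : Prog :=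
  (rowN lo hi r).foldr (fun a p => Prog.low (cd r a) (dnN lo hi R r a) (upN lo hi r a) p) p

/-- checks of row `r` of the upper part -/
def chkU (lo hi : List ℕ) (R r : ℕ) (p : Prog) : Prog :=
  (rowN lo hi r).foldr (fun a p => Prog.upp (cd r a) (upN lo hi r a) (dnN lo hi R r a) p) p

/-- number of steps -/
def len : Prog → ℕ
  | Prog.nil => 0
  | Prog.asg _ _ _ p => len p + 1
  | Prog.site _ _ _ p => len p + 1
  | Prog.low _ _ _ p => len p + 1
  | Prog.upp _ _ _ p => len p + 1
  | Prog.skp _ _ _ p => len p + 1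

/-- lower part from row `r` (assigned) to row `r + n`, then `q` -/
def lowP (lo hi : List ℕ) (R : ℕ) (q : Prog) : ℕ → ℕ → Prog
  | r, 0 => chkL lo hi R r q
  | r, n + 1 =>
    let p := asgL lo hi (r + 1) (chkL lo hi R r (lowP lo hi R q (r + 1) n))
    Prog.skp ((rowN lo hi r).map (cd r)) (len p - len q) q p

/-- upper part from row `r` (assigned) up to row `0`, then `q` -/
def uppP (lo hi : List ℕ) (R : ℕ) (q : Prog) : ℕ → Prog
  | 0 => chkU lo hi R 0 q
  | r + 1 =>
    let p := asgU lo hi R r (chkU lo hi R (r + 1) (uppP lo hi R q r))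
    Prog.skp ((rowN lo hi (r + 1)).map (cd (r + 1))) (len p - len q) q p

/-- near part: sites from left to right, each with its neighbours, which are not yet in `done` -/
def nearP (lo hi : List ℕ) (R s : ℕ) (q : Prog) : List ℕ → List ℕ → Prog
  | _, [] => q
  | done, a :: t =>
    let nb := (dnN lo hi R s a ++ upN lo hi s a).filter (fun y => !(done.contains y))
    Prog.asg (cd s a) 0 [] (nb.foldr (fun y p => Prog.asg y 0 [] p)
      (Prog.site (cd s a) (dnN lo hi R s a) (upN lo hi s a) (nearP lo hi R s q (nb ++ done) t)))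

/-- program for the strip with rows `0 .. R-1`, sites = row `s`, `1 ≤ s`, `s + 1 < R` -/
def mk (lo hi : List ℕ) (R s : ℕ) : Prog :=
  nearP lo hi R s (lowP lo hi R (uppP lo hi R Prog.nil (s - 1)) (s + 1) (R - s - 2)) []
    (rowN lo hi s)

/-- rows from letters -/
def rowsL (lo : ℕ) : List Bool → List ℕ
  | [] => [lo]
  | c :: t => lo :: rowsL (if c then lo else lo + 1) t

def rowsR (hi : ℕ) : List Bool → List ℕ
  | [] => [hi]
  | c :: t => hi :: rowsR (if c then hi + 1 else hi) t

end Pool.Agent.GaussPoset.Win.Ev
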