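import Pool.Agent.W_448ev_h61.EvF
import Pool.Agent.W_448ev_h61.EvMk
import Pool.Agent.W_448cr_h63.CC

/-!
# Verified evaluator, part G: programs of strips and component rows
-/

namespace Pool.Agent.GaussPoset.Win.Ev

set_option linter.unusedSectionVars false

open Finset

/-- `(r, a)` is an element of the strip -/
def inR (lo hi : List ℕ) (R r a : ℕ) : Bool :=
  Nat.ble (r + 1) R && Nat.ble (lo.getD r 0) a && Nat.ble a (hi.getD r 0)

/-- all checks are the checks of the strip with `R` rows and sites in row `s` -/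
def okS (lo hi : List ℕ) (R s : ℕ) : Prog → Bool
  | Prog.nil => true
  | Prog.asg _ _ _ p => okS lo hi R s p
  | Prog.skp _ _ _ p => okS lo hi R s p
  | Prog.site x dl ul p => Nat.beq (x / 32) s && inR lo hi R (x / 32) (x % 32) &&
      decide (dl = dnN lo hi R (x / 32) (x % 32)) && decide (ul = upN lo hi (x / 32) (x % 32)) &&
      okS lo hi R s p
  | Prog.low x o inn p => Nat.ble (s + 1) (x / 32) && inR lo hi R (x / 32) (x % 32) &&
      decide (o = dnN lo hi R (x / 32) (x % 32)) && decide (inn = upN lo hi (x / 32) (x % 32)) &&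
      okS lo hi R s p
  | Prog.upp x o inn p => Nat.ble (x / 32 + 1) s && inR lo hi R (x / 32) (x % 32) &&
      decide (o = upN lo hi (x / 32) (x % 32)) && decide (inn = dnN lo hi R (x / 32) (x % 32)) &&
      okS lo hi R s p

/-- the program belongs to the strip -/
def okP (lo hi : List ℕ) (R s : ℕ) (p : Prog) : Bool :=
  valid p && dsj p && okS lo hi R s p && decide ((chks p).Perm (asgs p)) &&
  (asgs p).all (fun c => inR lo hi R (c / 32) (c % 32)) &&
  (List.range R).all (fun r => (rowN lo hi r).all (fun a => (asgs p).contains (cd r a))) &&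
  (List.range R).all (fun r => Nat.ble (hi.getD r 0) 30) &&
  decide ((asgs p).Nodup)

lemma inR_iff {lo hi : List ℕ} {R r a : ℕ} :
    inR lo hi R r a = true ↔ r < R ∧ lo.getD r 0 ≤ a ∧ a ≤ hi.getD r 0 := by
  unfold inR
  rw [Bool.and_eq_true, Bool.and_eq_true, Nat.ble_eq, Nat.ble_eq, Nat.ble_eq]
  constructor
  · rintro ⟨⟨h1, h2⟩, h3⟩; exact ⟨h1, h2, h3⟩
  · rintro ⟨h1, h2, h3⟩; exact ⟨⟨h1, h2⟩, h3⟩

lemma cd_div {r a : ℕ} (h : a < 32) : cd r a / 32 = r := by unfold cd; omega
lemma cd_mod {r a : ℕ} (h : a < 32) : cd r a % 32 = a := by unfold cd; omega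
lemma cd_self (c : ℕ) : cd (c / 32) (c % 32) = c := by unfold cd; omega

lemma mem_rowN {lo hi : List ℕ} {r a : ℕ} :
    a ∈ rowN lo hi r ↔ lo.getD r 0 ≤ a ∧ a ≤ hi.getD r 0 := by
  unfold rowN
  rw [List.mem_map]
  constructor
  · rintro ⟨k, hk, rfl⟩
    rw [List.mem_range] at hk
    omega
  · rintro ⟨h1, h2⟩
    exact ⟨a - lo.getD r 0, List.mem_range.2 (by omega), by omega⟩

lemma mem_dnN {lo hi : List ℕ} {R r a y : ℕ} :
    y ∈ dnN lo hi R r a ↔ ∃ a', y = cd (r + 1) a' ∧ (a' = a ∨ a' = a + 1) ∧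
      inR lo hi R (r + 1) a' = true := by
  unfold dnN
  rcases Nat.lt_or_ge (r + 1) R with h | h
  · have h1 : Nat.ble R (r + 1) = false := by
      rw [← Bool.not_eq_true, Nat.ble_eq]; omega
    rw [h1, cond_false, List.mem_append]
    constructor
    · rintro (h2 | h2)
      · cases hc : (Nat.ble (lo.getD (r + 1) 0) a && Nat.ble a (hi.getD (r + 1) 0)) with
        | false => rw [hc, cond_false] at h2; exact absurd h2 (by simp)
        | true =>
          rw [hc, cond_true, List.mem_singleton] at h2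
          rw [Bool.and_eq_true, Nat.ble_eq, Nat.ble_eq] at hc
          exact ⟨a, h2, Or.inl rfl, inR_iff.2 ⟨h, hc.1, hc.2⟩⟩
      · cases hc : (Nat.ble (lo.getD (r + 1) 0) (a + 1) && Nat.ble (a + 1) (hi.getD (r + 1) 0)) with
        | false => rw [hc, cond_false] at h2; exact absurd h2 (by simp)
        | true =>
          rw [hc, cond_true, List.mem_singleton] at h2
          rw [Bool.and_eq_true, Nat.ble_eq, Nat.ble_eq] at hc
          exact ⟨a + 1, h2, Or.inr rfl, inR_iff.2 ⟨h, hc.1, hc.2⟩⟩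
    · rintro ⟨a', rfl, h2 | h2, h3⟩
      · subst h2
        rw [inR_iff] at h3
        left
        have hc : (Nat.ble (lo.getD (r + 1) 0) a' && Nat.ble a' (hi.getD (r + 1) 0)) = true := by
          rw [Bool.and_eq_true, Nat.ble_eq, Nat.ble_eq]; exact ⟨h3.2.1, h3.2.2⟩
        rw [hc, cond_true]
        simp
      · subst h2
        rw [inR_iff] at h3
        right
        have hc : (Nat.ble (lo.getD (r + 1) 0) (a + 1) &&
            Nat.ble (a + 1) (hi.getD (r + 1) 0)) = true := by
          rw [Bool.and_eq_true, Nat.ble_eq, Nat.ble_eq]; exact ⟨h3.2.1, h3.2.2⟩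
        rw [hc, cond_true]
        simp
  · have h1 : Nat.ble R (r + 1) = true := by rw [Nat.ble_eq]; omega
    rw [h1, cond_true]
    constructor
    · intro h2; exact absurd h2 (by simp)
    · rintro ⟨a', _, _, h3⟩
      rw [inR_iff] at h3
      omega

lemma mem_upN {lo hi : List ℕ} {r a y : ℕ} :
    y ∈ upN lo hi r a ↔ ∃ r' a', r = r' + 1 ∧ y = cd r' a' ∧ (a' = a ∨ a' + 1 = a) ∧
      lo.getD r' 0 ≤ a' ∧ a' ≤ hi.getD r' 0 := by
  cases r with
  | zero =>
    unfold upN
    constructor
    · intro h; exact absurd h (by simp)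
    · rintro ⟨r', a', h, _⟩; omega
  | succ r =>
    unfold upN
    rw [List.mem_append]
    constructor
    · rintro (h2 | h2)
      · cases hc : (Nat.ble (lo.getD r 0 + 1) a && Nat.ble a (hi.getD r 0 + 1)) with
        | false => rw [hc, cond_false] at h2; exact absurd h2 (by simp)
        | true =>
          rw [hc, cond_true, List.mem_singleton] at h2
          rw [Bool.and_eq_true, Nat.ble_eq, Nat.ble_eq] at hc
          exact ⟨r, a - 1, rfl, h2, Or.inr (by omega), by omega, by omega⟩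
      · cases hc : (Nat.ble (lo.getD r 0) a && Nat.ble a (hi.getD r 0)) with
        | false => rw [hc, cond_false] at h2; exact absurd h2 (by simp)
        | true =>
          rw [hc, cond_true, List.mem_singleton] at h2
          rw [Bool.and_eq_true, Nat.ble_eq, Nat.ble_eq] at hc
          exact ⟨r, a, rfl, h2, Or.inl rfl, hc.1, hc.2⟩
    · rintro ⟨r', a', h1, rfl, h2 | h2, h3, h4⟩
      · obtain rfl : r' = r := by omega
        subst h2
        right
        have hc : (Nat.ble (lo.getD r' 0) a' && Nat.ble a' (hi.getD r' 0)) = true := by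
          rw [Bool.and_eq_true, Nat.ble_eq, Nat.ble_eq]; exact ⟨h3, h4⟩
        rw [hc, cond_true]
        simp
      · obtain rfl : r' = r := by omega
        subst h2
        left
        have hc : (Nat.ble (lo.getD r' 0 + 1) (a' + 1) &&
            Nat.ble (a' + 1) (hi.getD r' 0 + 1)) = true := by
          rw [Bool.and_eq_true, Nat.ble_eq, Nat.ble_eq]; exact ⟨by omega, by omega⟩
        rw [hc, cond_true]
        simp

universe u

variable {P : Type u} [Fintype P] [PartialOrder P] [DecidableEq P] {r i j : ℕ}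
variable {C : Finset P} {t : P} {lo hi : ℕ → ℕ} {x : ℕ → ℕ → P}

/-- element of the code `c` -/
def ptc (x : ℕ → ℕ → P) (base c0 : ℕ) (c : ℕ) : P := x (base + c / 32) (c0 + c % 32)

/-- the rows `los`, `his` are the rows of the component from level `base` on -/
structure Rows (lo hi : ℕ → ℕ) (base c0 R : ℕ) (los his : List ℕ) : Prop where
  lo_eq : ∀ k, k < R → lo (base + k) = c0 + los.getD k 0
  hi_eq : ∀ k, k < R → hi (base + k) = c0 + his.getD k 0

/-- the part of the component in the rows -/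
noncomputable def SR (t : P) (base R : ℕ) : Finset P := by
  classical
  exact univ.filter (fun z => z ≤ t ∧ base ≤ lev z ∧ lev z < base + R)

lemma mem_SR {base R : ℕ} {z : P} : z ∈ SR t base R ↔ z ≤ t ∧ base ≤ lev z ∧ lev z < base + R := by
  classical
  unfold SR
  rw [mem_filter]
  exact ⟨fun h => h.2, fun h => ⟨mem_univ _, h⟩⟩

/-- everything the evaluator needs to know about the component -/
structure Loc (P : Type u) [Fintype P] [PartialOrder P] [DecidableEq P] (r j : ℕ) (t : P)
    (lo hi : ℕ → ℕ) (x : ℕ → ℕ → P) (C : Finset P) (i base c0 R s : ℕ) (los his : List ℕ) : Prop where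
  h : GoodTo P r j
  ht : lev t = 0
  hc : Comp P t j lo hi x
  part : Part i C
  mem : ∀ z, lev z < base + R → (z ∈ C ↔ z ≤ t)
  rows : Rows lo hi base c0 R los his
  hi' : i = base + s
  hs : s < R
  hj : base + R ≤ j + 1

section loc

variable {base c0 R s : ℕ} {los his : List ℕ}

theorem Loc.hir (Lc : Loc P r j t lo hi x C i base c0 R s los his) : i ≤ r := by
  have := Lc.h.hr
  have := Lc.hi'
  have := Lc.hs
  have := Lc.hj
  omega

lemma Loc.pt_spec (Lc : Loc P r j t lo hi x C i base c0 R s los his) {c : ℕ}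
    (h : inR los his R (c / 32) (c % 32) = true) :
    lev (ptc x base c0 c) = base + c / 32 ∧ ptc x base c0 c ≤ t ∧
      lo (base + c / 32) ≤ c0 + c % 32 ∧ c0 + c % 32 ≤ hi (base + c / 32) ∧ c / 32 < R := by
  rw [inR_iff] at h
  obtain ⟨h1, h2, h3⟩ := h
  have e1 := Lc.rows.lo_eq _ h1
  have e2 := Lc.rows.hi_eq _ h1
  have hj := Lc.hj
  have h4 : lo (base + c / 32) ≤ c0 + c % 32 := by omega
  have h5 : c0 + c % 32 ≤ hi (base + c / 32) := by omega
  exact ⟨Lc.hc.lev_x _ (by omega) _ h4 h5, Lc.hc.le_t _ (by omega) _ h4 h5, h4, h5, h1⟩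

/-- the chart of a component -/
theorem Loc.chart (Lc : Loc P r j t lo hi x C i base c0 R s los his) {p : Prog}
    (hok : okP los his R s p = true) :
    Chart i C (SR t base R) (ptc x base c0) (asgs p).toFinset := by
  classical
  unfold okP at hok
  simp only [Bool.and_eq_true] at hok
  obtain ⟨⟨⟨⟨⟨⟨⟨o1, o2⟩, o3⟩, o4⟩, o5⟩, o6⟩, o7⟩, o8⟩ := hok
  have hin : ∀ c ∈ (asgs p).toFinset, inR los his R (c / 32) (c % 32) = true := by
    intro c hc
    exact List.all_eq_true.1 o5 c (List.mem_toFinset.1 hc)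
  have hj := Lc.hj
  have hi' := Lc.hi'
  have hs := Lc.hs
  refine ⟨?_, ?_, ?_, ?_, ?_, ?_, ?_⟩
  · intro z hz
    rw [mem_SR] at hz
    exact (Lc.mem z hz.2.2).2 hz.1
  · intro z hz
    rw [mem_st] at hz
    rw [mem_SR]
    exact ⟨(Lc.mem z (by omega)).1 hz.1, by omega, by omega⟩
  · intro z hz hiz y hy
    rw [mem_SR] at hz ⊢
    have hl := (Lc.h.H.covBy_iff.1 hy).2
    refine ⟨Lc.h.cov_le (by omega) Lc.ht hz.1 hy, by omega, by omega⟩
  · intro z hz hiz y hy
    rw [mem_SR] at hz ⊢
    have hl := (Lc.h.H.covBy_iff.1 hy).2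
    exact ⟨hy.le.trans hz.1, by omega, by omega⟩
  · intro c hc
    obtain ⟨h1, h2, h3, h4, h5⟩ := Lc.pt_spec (hin c hc)
    rw [mem_SR]
    exact ⟨h2, by omega, by omega⟩
  · intro c hc d hd hcd
    obtain ⟨h1, h2, h3, h4, h5⟩ := Lc.pt_spec (hin c hc)
    obtain ⟨g1, g2, g3, g4, g5⟩ := Lc.pt_spec (hin d hd)
    have e1 : c / 32 = d / 32 := by
      rw [hcd] at h1
      omega
    unfold ptc at hcd
    rw [← e1] at g3 g4 hcd
    have := Lc.hc.inj' (by omega) h3 h4 g3 g4 hcd
    omega
  · intro z hz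
    rw [mem_SR] at hz
    obtain ⟨a, h1, h2, h3⟩ := Lc.hc.surj (lev z) (by omega) z rfl hz.1
    have hk : lev z - base < R := by omega
    have e1 := Lc.rows.lo_eq _ hk
    have e2 := Lc.rows.hi_eq _ hk
    have e3 : base + (lev z - base) = lev z := by omega
    rw [e3] at e1 e2
    have h4 : his.getD (lev z - base) 0 ≤ 30 := by
      have := List.all_eq_true.1 o7 _ (List.mem_range.2 hk)
      rwa [Nat.ble_eq] at this
    have h5 : a - c0 < 32 := by omega
    refine ⟨cd (lev z - base) (a - c0), ?_, ?_⟩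
    · rw [List.mem_toFinset]
      have h6 := List.all_eq_true.1 o6 _ (List.mem_range.2 hk)
      exact List.contains_iff_mem.1 (List.all_eq_true.1 h6 _ (mem_rowN.2 ⟨by omega, by omega⟩))
    · unfold ptc
      rw [cd_div h5, cd_mod h5, e3]
      have e4 : c0 + (a - c0) = a := by omega
      rw [e4]
      exact h3

lemma Loc.nbD_dnN (Lc : Loc P r j t lo hi x C i base c0 R s los his) {p : Prog}
    (hok : okP los his R s p = true) {c : ℕ} (hc : inR los his R (c / 32) (c % 32) = true) :
    nbD (SR t base R) (ptc x base c0) (asgs p).toFinset c (dnN los his R (c / 32) (c % 32)) := by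
  classical
  unfold okP at hok
  simp only [Bool.and_eq_true] at hok
  obtain ⟨⟨⟨⟨⟨⟨⟨o1, o2⟩, o3⟩, o4⟩, o5⟩, o6⟩, o7⟩, o8⟩ := hok
  obtain ⟨h1, h2, h3, h4, h5⟩ := Lc.pt_spec hc
  have hj := Lc.hj
  constructor
  · intro y hy
    obtain ⟨a', rfl, ha', hin⟩ := mem_dnN.1 hy
    rw [inR_iff] at hin
    have h6 : his.getD (c / 32 + 1) 0 ≤ 30 := by
      have := List.all_eq_true.1 o7 _ (List.mem_range.2 hin.1)
      rwa [Nat.ble_eq] at this
    have h7 : a' < 32 := by omega
    have e1 := Lc.rows.lo_eq _ hin.1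
    have e2 := Lc.rows.hi_eq _ hin.1
    constructor
    · rw [List.mem_toFinset]
      have h6 := List.all_eq_true.1 o6 _ (List.mem_range.2 hin.1)
      exact List.contains_iff_mem.1 (List.all_eq_true.1 h6 _ (mem_rowN.2 ⟨by omega, by omega⟩))
    · unfold ptc
      rw [cd_div h7, cd_mod h7, ← Nat.add_assoc]
      refine (Lc.hc.cov _ (by omega) _ _ ?_ ?_ h3 h4).2 ?_
      · rw [← Nat.add_assoc] at e1; omega
      · rw [← Nat.add_assoc] at e2; omega
      · omega
  · intro z hz hzc
    rw [mem_SR] at hz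
    have hl := (Lc.h.H.covBy_iff.1 hzc).2
    rw [h1] at hl
    have hk : c / 32 + 1 < R := by omega
    obtain ⟨a, g1, g2, g3⟩ := Lc.hc.surj (lev z) (by omega) z rfl hz.1
    have e0 : lev z = base + c / 32 + 1 := hl
    rw [e0] at g1 g2 g3
    have e1 := Lc.rows.lo_eq _ hk
    have e2 := Lc.rows.hi_eq _ hk
    rw [← Nat.add_assoc] at e1 e2
    rw [← g3] at hzc
    unfold ptc at hzc
    have g4 := (Lc.hc.cov _ (by omega) _ _ g1 g2 h3 h4).1 hzc
    have h6 : his.getD (c / 32 + 1) 0 ≤ 30 := by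
      have := List.all_eq_true.1 o7 _ (List.mem_range.2 hk)
      rwa [Nat.ble_eq] at this
    have h7 : a - c0 < 32 := by omega
    refine ⟨cd (c / 32 + 1) (a - c0), mem_dnN.2 ⟨a - c0, rfl, by omega, inR_iff.2 ⟨hk, by omega, by omega⟩⟩, ?_⟩
    unfold ptc
    rw [cd_div h7, cd_mod h7, ← Nat.add_assoc]
    have e4 : c0 + (a - c0) = a := by omega
    rw [e4]
    exact g3

lemma Loc.nbU_upN (Lc : Loc P r j t lo hi x C i base c0 R s los his) {p : Prog}
    (hok : okP los his R s p = true) {c : ℕ} (hc : inR los his R (c / 32) (c % 32) = true) :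
    nbU (SR t base R) (ptc x base c0) (asgs p).toFinset c (upN los his (c / 32) (c % 32)) := by
  classical
  unfold okP at hok
  simp only [Bool.and_eq_true] at hok
  obtain ⟨⟨⟨⟨⟨⟨⟨o1, o2⟩, o3⟩, o4⟩, o5⟩, o6⟩, o7⟩, o8⟩ := hok
  obtain ⟨h1, h2, h3, h4, h5⟩ := Lc.pt_spec hc
  have hj := Lc.hj
  constructor
  · intro y hy
    obtain ⟨r', a', hr', rfl, ha', hlo, hhi⟩ := mem_upN.1 hy
    have hk : r' < R := by omega
    have h6 : his.getD r' 0 ≤ 30 := by
      have := List.all_eq_true.1 o7 _ (List.mem_range.2 hk)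
      rwa [Nat.ble_eq] at this
    have h7 : a' < 32 := by omega
    have e1 := Lc.rows.lo_eq _ hk
    have e2 := Lc.rows.hi_eq _ hk
    constructor
    · rw [List.mem_toFinset]
      have h6 := List.all_eq_true.1 o6 _ (List.mem_range.2 hk)
      exact List.contains_iff_mem.1 (List.all_eq_true.1 h6 _ (mem_rowN.2 ⟨by omega, by omega⟩))
    · unfold ptc
      rw [cd_div h7, cd_mod h7]
      rw [hr', ← Nat.add_assoc] at h3 h4 ⊢
      refine (Lc.hc.cov _ (by omega) _ _ h3 h4 ?_ ?_).2 ?_
      · omega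
      · omega
      · omega
  · intro z hz hzc
    rw [mem_SR] at hz
    have hl := (Lc.h.H.covBy_iff.1 hzc).2
    rw [h1] at hl
    obtain ⟨r', hr'⟩ : ∃ r', c / 32 = r' + 1 := ⟨c / 32 - 1, by omega⟩
    have hk : r' < R := by omega
    have e0 : lev z = base + r' := by omega
    obtain ⟨a, g1, g2, g3⟩ := Lc.hc.surj (lev z) (by omega) z rfl hz.1
    rw [e0] at g1 g2 g3
    have e1 := Lc.rows.lo_eq _ hk
    have e2 := Lc.rows.hi_eq _ hk
    rw [← g3] at hzc
    unfold ptc at hzc
    rw [hr', ← Nat.add_assoc] at h3 h4 hzc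
    have g4 := (Lc.hc.cov _ (by omega) _ _ h3 h4 g1 g2).1 hzc
    have h6 : his.getD r' 0 ≤ 30 := by
      have := List.all_eq_true.1 o7 _ (List.mem_range.2 hk)
      rwa [Nat.ble_eq] at this
    have h7 : a - c0 < 32 := by omega
    refine ⟨cd r' (a - c0), mem_upN.2 ⟨r', a - c0, hr', rfl, by omega, by omega, by omega⟩, ?_⟩
    unfold ptc
    rw [cd_div h7, cd_mod h7]
    have e4 : c0 + (a - c0) = a := by omega
    rw [e4]
    exact g3

/-- the program fits -/
theorem Loc.fits (Lc : Loc P r j t lo hi x C i base c0 R s los his) {p0 : Prog}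
    (hok : okP los his R s p0 = true) : ∀ p : Prog, okS los his R s p = true →
    (∀ c ∈ chks p, c ∈ asgs p0) → fits i (SR t base R) (ptc x base c0) (asgs p0).toFinset p := by
  classical
  have hi' := Lc.hi'
  intro p
  induction p with
  | nil => intro _ _; trivial
  | asg x' lb caps p ih => intro h1 h2; exact ih h1 h2
  | skp xs k q p _ ih => intro h1 h2; exact ih h1 h2
  | site c dl ul p ih =>
    intro h1 h2
    simp only [okS, Bool.and_eq_true] at h1
    obtain ⟨⟨⟨⟨g1, g2⟩, g3⟩, g4⟩, g5⟩ := h1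
    have h3 := Lc.pt_spec g2
    have h4 := Nat.eq_of_beq_eq_true g1
    refine ⟨⟨List.mem_toFinset.2 (h2 c (by rw [chks]; simp)), by omega, ?_, ?_⟩,
      ih g5 fun d hd => h2 d (by rw [chks]; exact List.mem_cons_of_mem _ hd)⟩
    · rw [of_decide_eq_true g3]; exact Lc.nbD_dnN hok g2
    · rw [of_decide_eq_true g4]; exact Lc.nbU_upN hok g2
  | low c dl ul p ih =>
    intro h1 h2
    simp only [okS, Bool.and_eq_true] at h1
    obtain ⟨⟨⟨⟨g1, g2⟩, g3⟩, g4⟩, g5⟩ := h1
    have h3 := Lc.pt_spec g2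
    have h4 := Nat.le_of_ble_eq_true g1
    refine ⟨⟨List.mem_toFinset.2 (h2 c (by rw [chks]; simp)), by omega, ?_, ?_⟩,
      ih g5 fun d hd => h2 d (by rw [chks]; exact List.mem_cons_of_mem _ hd)⟩
    · rw [of_decide_eq_true g3]; exact Lc.nbD_dnN hok g2
    · rw [of_decide_eq_true g4]; exact Lc.nbU_upN hok g2
  | upp c dl ul p ih =>
    intro h1 h2
    simp only [okS, Bool.and_eq_true] at h1
    obtain ⟨⟨⟨⟨g1, g2⟩, g3⟩, g4⟩, g5⟩ := h1
    have h3 := Lc.pt_spec g2
    have h4 := Nat.le_of_ble_eq_true g1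
    refine ⟨⟨List.mem_toFinset.2 (h2 c (by rw [chks]; simp)), by omega, ?_, ?_⟩,
      ih g5 fun d hd => h2 d (by rw [chks]; exact List.mem_cons_of_mem _ hd)⟩
    · rw [of_decide_eq_true g3]; exact Lc.nbU_upN hok g2
    · rw [of_decide_eq_true g4]; exact Lc.nbD_dnN hok g2

/-- EVALUATION OF A COMPONENT, with lower bounds. -/
theorem Loc.eval_lb (Lc : Loc P r j t lo hi x C i base c0 R s los his) {p : Prog}
    (hok : okP los his R s p = true) {m n : ℕ} (hm : m ≤ 2) (hn : n < 32) :
    ev m p 0 n 0 0 0 = PowerSeries.coeff m (∑ e ∈ (SR t base R).piAntidiag n,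
      (by classical exact if lbs p (jM (ptc x base c0) (asgs p).toFinset e) then tC i C e else 0) : A) := by
  classical
  have hch := Lc.chart hok
  have hok0 := hok
  unfold okP at hok
  simp only [Bool.and_eq_true] at hok
  obtain ⟨⟨⟨⟨⟨⟨⟨o1, o2⟩, o3⟩, o4⟩, o5⟩, o6⟩, o7⟩, o8⟩ := hok
  have hperm : (chks p).Perm (asgs p) := of_decide_eq_true o4
  exact ev_chart Lc.h.H Lc.hir Lc.part hch hm o1 o2 hn
    (Lc.fits hok0 p o3 fun c hc => hperm.subset hc) rfl hperm (of_decide_eq_true o8)

/-- no lower bounds -/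
def lb0 : Prog → Bool
  | Prog.nil => true
  | Prog.asg _ lb _ p => Nat.beq lb 0 && lb0 p
  | Prog.site _ _ _ p => lb0 p
  | Prog.low _ _ _ p => lb0 p
  | Prog.upp _ _ _ p => lb0 p
  | Prog.skp _ _ _ p => lb0 p

lemma lbs_of_lb0 : ∀ (p : Prog) {M : ℕ → ℕ}, lb0 p = true → lbs p M := by
  intro p
  induction p with
  | nil => intro M _; exact trivial
  | asg x lb caps p ih =>
    intro M h
    simp only [lb0, Bool.and_eq_true] at h
    rw [lbs_asg, Nat.eq_of_beq_eq_true h.1]
    exact ⟨Nat.zero_le _, ih h.2⟩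
  | site x dl ul p ih => intro M h; exact ih h
  | low x o inn p ih => intro M h; exact ih h
  | upp x o inn p ih => intro M h; exact ih h
  | skp xs k q p _ ih => intro M h; exact ih h

/-- EVALUATION OF A COMPONENT: the rows reach far enough, or the component ends. -/
theorem Loc.eval (Lc : Loc P r j t lo hi x C i base c0 R s los his) {p : Prog}
    (hok : okP los his R s p = true) (h0 : lb0 p = true) {m n : ℕ} (hm : m ≤ 2) (hn : n < 32)
    (htop : base = 0 ∨ n ≤ s) (hbot : s + n < R ∨ ∀ z ∈ C, lev z < base + R) :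
    PowerSeries.coeff m (ZC i C n : A) = ev m p 0 n 0 0 0 := by
  classical
  rw [Lc.eval_lb hok hm hn]
  congr 1
  unfold ZC
  have hsub : (SR t base R).piAntidiag n ⊆ C.piAntidiag n := by
    intro e he
    rw [mem_piAntidiag] at he ⊢
    have hS : SR t base R ⊆ C := (Lc.chart hok).sub
    refine ⟨?_, fun z hz => hS (he.2 z hz)⟩
    rw [← he.1]
    symm
    refine sum_subset hS fun z _ hz => ?_
    by_contra h
    exact hz (he.2 z h)
  rw [← sum_subset hsub]
  · refine Finset.sum_congr rfl fun e _ => ?_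
    rw [if_pos (lbs_of_lb0 p h0)]
  · intro e he hes
    by_contra hne
    apply hes
    rw [mem_piAntidiag] at he ⊢
    have hsum : ∑ y, e y = n := by
      rw [← he.1]
      symm
      refine sum_subset (subset_univ _) fun z _ hz => ?_
      by_contra h
      exact hz (he.2 z h)
    have hin : ∀ z, e z ≠ 0 → z ∈ SR t base R := by
      intro z hz
      have hzC := he.2 z hz
      have hi' := Lc.hi'
      have h1 : base ≤ lev z := by
        by_contra h
        rcases htop with h2 | h2
        · omega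
        · exact hz (far_zero Lc.h.H Lc.hir hne hsum.le (Or.inr (by omega)))
      have h2 : lev z < base + R := by
        rcases hbot with h3 | h3
        · by_contra h
          exact hz (far_zero Lc.h.H Lc.hir hne hsum.le (Or.inl (by omega)))
        · exact h3 z hzC
      rw [mem_SR]
      exact ⟨(Lc.mem z h2).1 hzC, h1, h2⟩
    refine ⟨?_, hin⟩
    rw [← he.1]
    refine sum_subset (Lc.chart hok).sub fun z _ hz => ?_
    by_contra h
    exact hz (hin z h)

end loc

end Pool.Agent.GaussPoset.Win.Ev
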