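import Pool.Agent.W_448ev_h61.EvH

/-! Local data of a window with three sites, three rows below: decidable check. -/

namespace Pool.Agent.GaussPoset.Win.Ev

/-- all the checks for a window (row `s`) with three rows below: program well formed, last row not
seen up to energy `5`, values at energies `5` and `6` -/
noncomputable def good3 (los his : List ℕ) (s : ℕ) (v5 v6 : ℤ) : Bool :=
  okP los his (s + 4) s (mk los his (s + 4) s) && lb0 (mk los his (s + 4) s) &&
  decide (ev 1 (mk los his (s + 4) s) 0 5 0 0 0 = v5) &&
  decide (ev 1 (mk los his (s + 4) s) 0 6 0 0 0 = v6) &&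
  okXs los his (s + 4) s 1 6

end Pool.Agent.GaussPoset.Win.Ev
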