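import Pool.Agent.W_448ev_h61.EvI

/-! Values of local words (kernel evaluation), part 2. -/

namespace Pool.Agent.GaussPoset.Win.Ev

set_option maxRecDepth 100000

theorem g_l_OC_OO_CO_OO_OC : good3 [0, 0, 0, 0, 0, 0, 0, 1, 1, 1] [0, 0, 0, 0, 1, 1, 2, 3, 4, 4] 6 (-1) 0 = true := by decide +kernel

theorem g_l_OC_OO_CO_OO_CC : good3 [0, 0, 0, 0, 0, 0, 0, 1, 1, 2] [0, 0, 0, 0, 1, 1, 2, 3, 4, 4] 6 (-1) 1 = true := by decide +kernel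

theorem g_l_OC_CO_CO_OO_CC_CO_CO : good3 [0, 0, 0, 0, 1, 2, 2, 3, 4, 5] [0, 0, 1, 1, 2, 3, 4, 4, 5, 6] 6 (-1) (-1) = true := by decide +kernel

theorem g_l_OC_CO_CO_OO_CC_CO_CC : good3 [0, 0, 0, 0, 1, 2, 2, 3, 4, 5] [0, 0, 1, 1, 2, 3, 4, 4, 5, 5] 6 (-1) 0 = true := by decide +kernel

end Pool.Agent.GaussPoset.Win.Ev
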