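import Pool.Agent.W_448ev_h61.EvI

/-! Values of local words (kernel evaluation), part 7. -/

namespace Pool.Agent.GaussPoset.Win.Ev

set_option maxRecDepth 100000

theorem g_S3m5 : good3 [0, 0, 0, 1, 2, 3, 4, 5, 6, 6] [3, 4, 4, 5, 5, 6, 6, 7, 7, 7] 6 0 (-1) = true := by decide +kernel

theorem g_S3m6 : good3 [0, 0, 1, 2, 3, 4, 5, 6, 7, 7] [4, 5, 5, 6, 6, 7, 7, 8, 8, 8] 6 0 (-1) = true := by decide +kernel

theorem g_S3m7 : good3 [0, 1, 2, 3, 4, 5, 6, 7, 8, 8] [5, 6, 6, 7, 7, 8, 8, 9, 9, 9] 6 0 (-1) = true := by decide +kernel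

end Pool.Agent.GaussPoset.Win.Ev
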