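import Pool.Agent.W_448ev_h61.EvI

/-! First order values: decidable check, and the words of the laws `fa` and `bad`. -/

namespace Pool.Agent.GaussPoset.Win.Ev

/-- check for one value: `m` free sites at most, energy `E`, rows `0 .. R-1`, window row `s` -/
noncomputable def goodE (los his : List ℕ) (R s m E : ℕ) (v : ℤ) : Bool :=
  okP los his R s (mk los his R s) && lb0 (mk los his R s) &&
  decide (ev m (mk los his R s) 0 E 0 0 0 = v)

/-- check for the second order at the energies `2 ρ - 1`, `2 ρ` (`R = s + ρ + 1` rows): both values
vanish and the last row is not seen below the energy `2 ρ` -/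
noncomputable def goodB (los his : List ℕ) (R s N : ℕ) : Bool :=
  okP los his R s (mk los his R s) && lb0 (mk los his R s) &&
  decide (ev 1 (mk los his R s) 0 (N - 1) 0 0 0 = 0) &&
  decide (ev 1 (mk los his R s) 0 N 0 0 0 = 0) && okXs los his R s 1 N

end Pool.Agent.GaussPoset.Win.Ev
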