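import Pool.Agent.W_448ev_h61.EvK

/-! Second order values of the word E7 at the window 8 (kernel evaluation). -/

namespace Pool.Agent.GaussPoset.Win.Ev

set_option maxRecDepth 100000

theorem E7_5 : goodB [0, 0, 0, 0, 0, 0, 1, 2, 2, 3, 3, 3, 4, 5] [0, 0, 0, 0, 1, 1, 2, 3, 4, 4, 4, 4, 5, 5] 14 8 10 = true := by decide +kernel

end Pool.Agent.GaussPoset.Win.Ev
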