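import Pool.Agent.W_448ev_h61.EvN

/-! Values of the word E7 at the window 8 (kernel evaluation). -/

namespace Pool.Agent.GaussPoset.Win.Ev

set_option maxRecDepth 100000

theorem E7p14_1 : pcs 1 (tl (mk [0, 0, 0, 0, 0, 0, 1, 2, 2, 3, 3, 3, 4, 5, 5, 5] [0, 0, 0, 0, 1, 1, 2, 3, 4, 4, 4, 4, 5, 5, 5, 5] 16 8)) 258 14 1 [2] = true := by decide +kernel

end Pool.Agent.GaussPoset.Win.Ev
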