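import Pool.Agent.W_448ev_h61.EvL7a
import Pool.Agent.W_448ev_h61.EvL7b
import Pool.Agent.W_448ev_h61.EvL7c
import Pool.Agent.W_448ev_h61.EvL7d
import Pool.Agent.W_448ev_h61.EvL7e

/-! The word E7 at the window 8, energies 13 and 14. -/

namespace Pool.Agent.GaussPoset.Win.Ev

set_option maxRecDepth 100000

lemma pcs_get {m : ℕ} {q : Prog} {x b u : ℕ} {c : List ℤ} (h : pcs m q x b u c = true) {k : ℕ}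
    (hk : k < c.length) : ev m q ((u + k) * 32 ^ x) (b - (u + k)) 0 0 0 = c.getD k 0 := by
  unfold pcs at h
  rw [List.all_eq_true] at h
  exact of_decide_eq_true (h k (List.mem_range.2 hk))

theorem E7_7_ok : okP [0, 0, 0, 0, 0, 0, 1, 2, 2, 3, 3, 3, 4, 5, 5, 5] [0, 0, 0, 0, 1, 1, 2, 3, 4, 4, 4, 4, 5, 5, 5, 5] 16 8 (mk [0, 0, 0, 0, 0, 0, 1, 2, 2, 3, 3, 3, 4, 5, 5, 5] [0, 0, 0, 0, 1, 1, 2, 3, 4, 4, 4, 4, 5, 5, 5, 5] 16 8) = true ∧ lb0 (mk [0, 0, 0, 0, 0, 0, 1, 2, 2, 3, 3, 3, 4, 5, 5, 5] [0, 0, 0, 0, 1, 1, 2, 3, 4, 4, 4, 4, 5, 5, 5, 5] 16 8) = true := by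
  constructor <;> decide +kernel

theorem E7_7_hd : hd0 258 (mk [0, 0, 0, 0, 0, 0, 1, 2, 2, 3, 3, 3, 4, 5, 5, 5] [0, 0, 0, 0, 1, 1, 2, 3, 4, 4, 4, 4, 5, 5, 5, 5] 16 8) = true := by decide +kernel

theorem E7_7_13 : ev 1 (mk [0, 0, 0, 0, 0, 0, 1, 2, 2, 3, 3, 3, 4, 5, 5, 5] [0, 0, 0, 0, 1, 1, 2, 3, 4, 4, 4, 4, 5, 5, 5, 5] 16 8) 0 13 0 0 0 = 0 := by
  rw [ev_split E7_7_hd]
  have h0 := pcs_get E7p13_0 (k := 0) (by decide)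
  have h1 := pcs_get E7p13_1 (k := 0) (by decide)
  have h2 : ∀ k, k < 12 → ev 1 (tl (mk [0, 0, 0, 0, 0, 0, 1, 2, 2, 3, 3, 3, 4, 5, 5, 5] [0, 0, 0, 0, 1, 1, 2, 3, 4, 4, 4, 4, 5, 5, 5, 5] 16 8)) ((2 + k) * 32 ^ 258) (13 - (2 + k)) 0 0 0 =
      ([-2, 0, 0, 0, 0, 0, 0, 0, 0, 0, 0, 0] : List ℤ).getD k 0 := fun k hk => pcs_get E7p13_2 hk
  rw [Finset.sum_range_succ', Finset.sum_range_succ']
  have h3 : ∀ k ∈ Finset.range 12, ev 1 (tl (mk [0, 0, 0, 0, 0, 0, 1, 2, 2, 3, 3, 3, 4, 5, 5, 5] [0, 0, 0, 0, 1, 1, 2, 3, 4, 4, 4, 4, 5, 5, 5, 5] 16 8)) (0 + (k + 1 + 1) * 32 ^ 258) (13 - (k + 1 + 1)) 0 0 0 =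
      ([-2, 0, 0, 0, 0, 0, 0, 0, 0, 0, 0, 0] : List ℤ).getD k 0 := by
    intro k hk
    rw [← h2 k (Finset.mem_range.1 hk), show k + 1 + 1 = 2 + k by omega, Nat.zero_add]
  rw [Finset.sum_congr rfl h3]
  simp only [Nat.zero_add] at h0 h1 ⊢
  rw [h0]
  have h1' := h1
  simp only [Nat.add_zero] at h1'
  rw [h1']
  decide

theorem E7_7_14 : ev 1 (mk [0, 0, 0, 0, 0, 0, 1, 2, 2, 3, 3, 3, 4, 5, 5, 5] [0, 0, 0, 0, 1, 1, 2, 3, 4, 4, 4, 4, 5, 5, 5, 5] 16 8) 0 14 0 0 0 = 0 := by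
  rw [ev_split E7_7_hd]
  have h0 := pcs_get E7p14_0 (k := 0) (by decide)
  have h1 := pcs_get E7p14_1 (k := 0) (by decide)
  have h2 : ∀ k, k < 13 → ev 1 (tl (mk [0, 0, 0, 0, 0, 0, 1, 2, 2, 3, 3, 3, 4, 5, 5, 5] [0, 0, 0, 0, 1, 1, 2, 3, 4, 4, 4, 4, 5, 5, 5, 5] 16 8)) ((2 + k) * 32 ^ 258) (14 - (2 + k)) 0 0 0 =
      ([0, -2, 0, 0, 0, 0, 0, 0, 0, 0, 0, 0, 0] : List ℤ).getD k 0 := fun k hk => pcs_get E7p14_2 hk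
  rw [Finset.sum_range_succ', Finset.sum_range_succ']
  have h3 : ∀ k ∈ Finset.range 13, ev 1 (tl (mk [0, 0, 0, 0, 0, 0, 1, 2, 2, 3, 3, 3, 4, 5, 5, 5] [0, 0, 0, 0, 1, 1, 2, 3, 4, 4, 4, 4, 5, 5, 5, 5] 16 8)) (0 + (k + 1 + 1) * 32 ^ 258) (14 - (k + 1 + 1)) 0 0 0 =
      ([0, -2, 0, 0, 0, 0, 0, 0, 0, 0, 0, 0, 0] : List ℤ).getD k 0 := by
    intro k hk
    rw [← h2 k (Finset.mem_range.1 hk), show k + 1 + 1 = 2 + k by omega, Nat.zero_add]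
  rw [Finset.sum_congr rfl h3]
  simp only [Nat.zero_add] at h0 h1 ⊢
  rw [h0]
  have h1' := h1
  simp only [Nat.add_zero] at h1'
  rw [h1']
  decide

end Pool.Agent.GaussPoset.Win.Ev
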