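import Pool.Agent.W_448ev_h24.JkC
import Pool.Agent.W_448ev_h61.EvI1
import Pool.Agent.W_448ev_h61.EvI2
import Pool.Agent.W_448ev_h61.EvI3
import Pool.Agent.W_448ev_h61.EvI4
import Pool.Agent.W_448ev_h61.EvI5
import Pool.Agent.W_448ev_h61.EvI6
import Pool.Agent.W_448ev_h61.EvI7
import Pool.Agent.W_448wd_h84.WdB

/-! Second order values (5,2), (6,2) of late words, of F1 and of the early words of row 470, at
windows with three sites, three known levels below. -/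

set_option autoImplicit false

namespace Pool.Agent.GaussPoset.Win.Ev

set_option linter.unusedSectionVars false

open Finset
open Wd (Ltr Lw Hw cco)

universe u

variable {P : Type u} [Fintype P] [PartialOrder P] [DecidableEq P] {r i j : ℕ}
variable {C : Finset P} {t : P} {lo hi : ℕ → ℕ} {x : ℕ → ℕ → P} {base c0 R s : ℕ} {los his : List ℕ}

lemma EvM_okXs_mono {m N n : ℕ} (h : okXs los his R s m N = true) (hn : n ≤ N) :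
    okXs los his R s m n = true := by
  unfold okXs at h ⊢
  rw [List.all_eq_true] at h ⊢
  intro X hX
  have h1 := h X hX
  rw [Bool.or_eq_true] at h1 ⊢
  rcases h1 with h1 | h1
  · exact Or.inl h1
  · right
    unfold okX at h1 ⊢
    rw [Bool.and_eq_true] at h1 ⊢
    refine ⟨h1.1, ?_⟩
    have h2 := h1.2
    rw [List.all_eq_true] at h2 ⊢
    intro k hk
    exact h2 k (List.mem_range.2 (lt_of_lt_of_le (List.mem_range.1 hk) hn))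

theorem Loc.be3 {v5 v6 : ℤ} (Lc : Loc P r j t lo hi x C i base c0 (s + 4) s los his)
    (hg : good3 los his s v5 v6 = true) (htop : base = 0 ∨ 6 ≤ s) :
    I2.be 5 3 (ZS i C) = v5 ∧ I2.be 6 3 (ZS i C) = v6 := by
  unfold good3 at hg
  simp only [Bool.and_eq_true, decide_eq_true_eq] at hg
  obtain ⟨⟨⟨⟨h1, h2⟩, h3⟩, h4⟩, h5⟩ := hg
  constructor
  · rw [Lc.be_all h1 h2 (b := 3) (n := 5) (by omega) (by omega) (by omega) (by omega) (by omega)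
      (by omega) (EvM_okXs_mono h5 (by omega))]
    exact h3
  · rw [Lc.be_all h1 h2 (b := 3) (n := 6) (by omega) (by omega) (by omega) (by omega) (by omega)
      (by omega) h5]
    exact h4

/-- values at a window with three known levels below, from explicit rows -/
theorem be_rows (K : Comp P t j lo hi x) (h : GoodTo P r j) (ht : lev t = 0) (hk : i + 3 ≤ j)
    (hS : ∀ y, lev y ≤ i + 3 → (y ∈ C ↔ y ≤ t)) (hP : Part i C) {v5 v6 : ℤ}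
    (hg : good3 los his s v5 v6 = true) (hb : base + s = i) (htop : base = 0 ∨ 6 ≤ s)
    (hr : ∀ k, k < s + 4 → lo (base + k) = c0 + los.getD k 0 ∧ hi (base + k) = c0 + his.getD k 0) :
    I2.be 5 3 (ZS i C) = v5 ∧ I2.be 6 3 (ZS i C) = v6 :=
  Loc.be3 (Lc := ⟨h, ht, K, hP, fun z hz => hS z (by omega),
    ⟨fun k hk => (hr k hk).1, fun k hk => (hr k hk).2⟩, hb.symm, by omega, by omega⟩) hg htop

/-! ## late words -/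

/-- late words (window `3` levels above the last one), rows from level `i - 6`, values -/
def T3 : List (List Ltr × List ℕ × List ℕ × ℤ × ℤ) :=
  [([Wd.OC, Wd.OO, Wd.CO, Wd.OO, Wd.OO],
    [0, 0, 0, 0, 0, 0, 0, 1, 1, 1], [0, 0, 0, 0, 1, 1, 2, 3, 4, 5], (-1), 0),
   ([Wd.OC, Wd.OO, Wd.CO, Wd.OO, Wd.CO],
    [0, 0, 0, 0, 0, 0, 0, 1, 1, 2], [0, 0, 0, 0, 1, 1, 2, 3, 4, 5], (-1), 1),
   ([Wd.OC, Wd.OO, Wd.CO, Wd.OO, Wd.OC],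
    [0, 0, 0, 0, 0, 0, 0, 1, 1, 1], [0, 0, 0, 0, 1, 1, 2, 3, 4, 4], (-1), 0),
   ([Wd.OC, Wd.OO, Wd.CO, Wd.OO, Wd.CC],
    [0, 0, 0, 0, 0, 0, 0, 1, 1, 2], [0, 0, 0, 0, 1, 1, 2, 3, 4, 4], (-1), 1),
   ([Wd.OC, Wd.CO, Wd.CO, Wd.OO, Wd.CC, Wd.CO, Wd.CO],
    [0, 0, 0, 0, 1, 2, 2, 3, 4, 5], [0, 0, 1, 1, 2, 3, 4, 4, 5, 6], (-1), (-1)),
   ([Wd.OC, Wd.CO, Wd.CO, Wd.OO, Wd.CC, Wd.CO, Wd.CC],
    [0, 0, 0, 0, 1, 2, 2, 3, 4, 5], [0, 0, 1, 1, 2, 3, 4, 4, 5, 5], (-1), 0),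
   ([Wd.OC, Wd.CO, Wd.CO, Wd.OO, Wd.CC, Wd.OC, Wd.OC],
    [0, 0, 0, 0, 1, 2, 2, 3, 3, 3], [0, 0, 1, 1, 2, 3, 4, 4, 4, 4], 0, 0),
   ([Wd.OC, Wd.CO, Wd.CO, Wd.OO, Wd.CC, Wd.OC, Wd.CC],
    [0, 0, 0, 0, 1, 2, 2, 3, 3, 4], [0, 0, 1, 1, 2, 3, 4, 4, 4, 4], 0, 0),
   ([Wd.OC, Wd.CO, Wd.CO, Wd.OO, Wd.CO, Wd.OC, Wd.OC],
    [0, 0, 0, 0, 1, 2, 2, 3, 3, 3], [0, 0, 1, 1, 2, 3, 4, 5, 5, 5], 0, 0),
   ([Wd.OC, Wd.CO, Wd.CO, Wd.OO, Wd.CO, Wd.OC, Wd.CC],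
    [0, 0, 0, 0, 1, 2, 2, 3, 3, 4], [0, 0, 1, 1, 2, 3, 4, 5, 5, 5], 0, 0),
   ([Wd.OC, Wd.CO, Wd.CO, Wd.OO, Wd.CO, Wd.OC, Wd.OC, Wd.OO],
    [0, 0, 0, 1, 2, 2, 3, 3, 3, 3], [0, 1, 1, 2, 3, 4, 5, 5, 5, 6], 0, (-1)),
   ([Wd.OC, Wd.CO, Wd.CO, Wd.OO, Wd.CO, Wd.OC, Wd.OC, Wd.CO],
    [0, 0, 0, 1, 2, 2, 3, 3, 3, 4], [0, 1, 1, 2, 3, 4, 5, 5, 5, 6], 0, (-1)),
   ([Wd.OC, Wd.CO, Wd.CO, Wd.OO, Wd.CO, Wd.OO, Wd.OO],
    [0, 0, 0, 0, 1, 2, 2, 3, 3, 3], [0, 0, 1, 1, 2, 3, 4, 5, 6, 7], 0, 0),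
   ([Wd.OC, Wd.CO, Wd.CO, Wd.OO, Wd.CO, Wd.OO, Wd.CO],
    [0, 0, 0, 0, 1, 2, 2, 3, 3, 4], [0, 0, 1, 1, 2, 3, 4, 5, 6, 7], 0, 0),
   ([Wd.OC, Wd.CO, Wd.CO, Wd.OO, Wd.CO, Wd.OO, Wd.OC],
    [0, 0, 0, 0, 1, 2, 2, 3, 3, 3], [0, 0, 1, 1, 2, 3, 4, 5, 6, 6], 0, 0),
   ([Wd.OC, Wd.CO, Wd.CO, Wd.OO, Wd.CO, Wd.OO, Wd.CC],
    [0, 0, 0, 0, 1, 2, 2, 3, 3, 4], [0, 0, 1, 1, 2, 3, 4, 5, 6, 6], 0, 0)]

/-- late words with `a = 3`, rows from level `0` -/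
def T3b : List (List Ltr × List ℕ × List ℕ × ℤ × ℤ) :=
  [([Wd.OC, Wd.OO, Wd.CO, Wd.OC, Wd.OC],
    [0, 0, 0, 0, 0, 0, 1, 1, 1], [0, 0, 0, 1, 1, 2, 3, 3, 3], (-1), 0),
   ([Wd.OC, Wd.OO, Wd.CO, Wd.OC, Wd.CC],
    [0, 0, 0, 0, 0, 0, 1, 1, 2], [0, 0, 0, 1, 1, 2, 3, 3, 3], (-1), 1)]

set_option maxRecDepth 100000 in
lemma T3_good : ∀ e ∈ T3, good3 e.2.1 e.2.2.1 6 e.2.2.2.1 e.2.2.2.2 = true := by
  simp only [T3, List.mem_cons, List.not_mem_nil, or_false, forall_eq_or_imp, forall_eq]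
  exact ⟨g_l_OC_OO_CO_OO_OO, g_l_OC_OO_CO_OO_CO, g_l_OC_OO_CO_OO_OC, g_l_OC_OO_CO_OO_CC, g_l_OC_CO_CO_OO_CC_CO_CO, g_l_OC_CO_CO_OO_CC_CO_CC, g_l_OC_CO_CO_OO_CC_OC_OC, g_l_OC_CO_CO_OO_CC_OC_CC, g_l_OC_CO_CO_OO_CO_OC_OC, g_l_OC_CO_CO_OO_CO_OC_CC, g_l_OC_CO_CO_OO_CO_OC_OC_OO, g_l_OC_CO_CO_OO_CO_OC_OC_CO, g_l_OC_CO_CO_OO_CO_OO_OO, g_l_OC_CO_CO_OO_CO_OO_CO, g_l_OC_CO_CO_OO_CO_OO_OC, g_l_OC_CO_CO_OO_CO_OO_CC⟩

set_option maxRecDepth 100000 in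
lemma T3b_good : ∀ e ∈ T3b, good3 e.2.1 e.2.2.1 5 e.2.2.2.1 e.2.2.2.2 = true := by
  simp only [T3b, List.mem_cons, List.not_mem_nil, or_false, forall_eq_or_imp, forall_eq]
  exact ⟨g_b_OC_OO_CO_OC_OC, g_b_OC_OO_CO_OC_CC⟩

lemma T3_spec : ∀ e ∈ T3, (5 ≤ e.1.length ∧ (∀ k, k < 10 → Lw e.1 (e.1.length + k - 6) = e.2.1.getD k 0 ∧
      Hw e.1 (e.1.length + k - 6) = e.2.2.1.getD k 0)) ∧
    (Wd.Flip (Lw e.1) (Hw e.1) e.1.length → e.2.2.2.1 = -1) ∧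
    (¬ Wd.Flip (Lw e.1) (Hw e.1) e.1.length → e.2.2.2.1 = 0 ∧
      e.2.2.2.2 = if cco (Lw e.1) (Hw e.1) e.1.length then -1 else 0) := by
  decide +kernel

lemma T3b_spec : ∀ e ∈ T3b, (e.1.length = 5 ∧ (∀ k, k < 9 → Lw e.1 k = e.2.1.getD k 0 ∧
      Hw e.1 k = e.2.2.1.getD k 0)) ∧ Wd.Flip (Lw e.1) (Hw e.1) e.1.length ∧ e.2.2.2.1 = -1 := by
  decide +kernel

/-- second order values of a late word -/
theorem be_late (K : Comp P t j lo hi x) (h : GoodTo P r j) (ht : lev t = 0) {a : ℕ} {w : List Ltr}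
    (ha : 3 ≤ a) (hk : i + 3 ≤ j) (hi' : i + 3 = a + w.length)
    (hS : ∀ y, lev y ≤ i + 3 → (y ∈ C ↔ y ≤ t)) (hP : Part i C)
    (hz : ∀ k, k < a → lo k = 0 ∧ hi k = 0)
    (hL : ∀ n, n ≤ w.length + 3 → Lw w n = lo (a - 3 + n))
    (hH : ∀ n, n ≤ w.length + 3 → Hw w n = hi (a - 3 + n))
    (hw : (w ∈ T3.map Prod.fst ∧ 9 ≤ a + w.length) ∨ (w ∈ T3b.map Prod.fst ∧ a = 3)) :
    (Wd.Flip lo hi i → I2.be 5 3 (ZS i C) = -1) ∧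
    (¬ Wd.Flip lo hi i → I2.be 5 3 (ZS i C) = 0 ∧
      I2.be 6 3 (ZS i C) = if cco lo hi i then -1 else 0) := by
  have hN : i = a - 3 + w.length := by omega
  have h5 : 5 ≤ w.length := by
    rcases hw with ⟨hw, -⟩ | ⟨hw, -⟩
    · obtain ⟨e, he, rfl⟩ := List.mem_map.1 hw
      exact (T3_spec e he).1.1
    · obtain ⟨e, he, rfl⟩ := List.mem_map.1 hw
      exact (T3b_spec e he).1.1.ge
  have hF : Wd.Flip (Lw w) (Hw w) w.length ↔ Wd.Flip lo hi i := by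
    rw [hN]
    exact Wd.Flip_congr hL hH (by omega) (by omega)
  have hc : cco (Lw w) (Hw w) w.length ↔ cco lo hi i := by
    rw [hN]
    exact Wd.cco_congr hL hH (by omega)
  rcases hw with ⟨hw, h9⟩ | ⟨hw, rfl⟩
  · obtain ⟨e, he, rfl⟩ := List.mem_map.1 hw
    obtain ⟨⟨s1, s2⟩, s3, s4⟩ := T3_spec e he
    have key := be_rows (C := C) (base := a + e.1.length - 9) (c0 := 0) (s := 6) K h ht hk hS hP
      (T3_good e he) (by omega) (by omega) (by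
        intro k hk
        have h1 := s2 k hk
        rw [Nat.zero_add, Nat.zero_add, ← h1.1, ← h1.2]
        rcases Nat.lt_or_ge (e.1.length + k) 6 with h2 | h2
        · rw [show e.1.length + k - 6 = 0 by omega]
          have h3 := hz (a + e.1.length - 9 + k) (by omega)
          rw [h3.1, h3.2]
          exact ⟨rfl, rfl⟩
        · rw [hL _ (by omega), hH _ (by omega),
            show a - 3 + (e.1.length + k - 6) = a + e.1.length - 9 + k by omega]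
          exact ⟨rfl, rfl⟩)
    rw [← hF, key.1, key.2]
    refine ⟨s3, fun h5 => ?_⟩
    have h6 := s4 h5
    refine ⟨h6.1, h6.2.trans ?_⟩
    by_cases h7 : cco (Lw e.1) (Hw e.1) e.1.length
    · rw [if_pos h7, if_pos (hc.1 h7)]
    · rw [if_neg h7, if_neg (fun h8 => h7 (hc.2 h8))]
  · obtain ⟨e, he, rfl⟩ := List.mem_map.1 hw
    obtain ⟨⟨s1, s2⟩, s3, s4⟩ := T3b_spec e he
    have key := be_rows (C := C) (base := 0) (c0 := 0) (s := 5) K h ht hk hS hP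
      (T3b_good e he) (by omega) (by omega) (by
        intro k hk
        have h1 := s2 k hk
        rw [Nat.zero_add, Nat.zero_add, Nat.zero_add, ← h1.1, ← h1.2, hL _ (by omega), hH _ (by omega)]
        simp)
    rw [key.1]
    exact ⟨fun _ => s4, fun h5 => absurd (hF.1 s3) h5⟩

end Pool.Agent.GaussPoset.Win.Ev
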