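import Pool.Agent.W_448ev_h61.EvK

/-! Splitting a long evaluation along the first label. -/

namespace Pool.Agent.GaussPoset.Win.Ev

/-- the program without its first assignment -/
def tl : Prog → Prog
  | Prog.asg _ _ _ p => p
  | p => p

/-- first assignment is `x`, from label `0`, without caps -/
def hd0 (x : ℕ) : Prog → Bool
  | Prog.asg y lb caps _ => Nat.beq y x && Nat.beq lb 0 && caps.isEmpty
  | _ => false

theorem ev_split {m x : ℕ} {p : Prog} (h : hd0 x p = true) (v b n1 n2 f : ℕ) :
    ev m p v b n1 n2 f =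
      ∑ k ∈ Finset.range (b + 1), ev m (tl p) (v + k * 32 ^ x) (b - k) n1 n2 f := by
  cases p with
  | asg y lb caps q =>
    simp only [hd0, Bool.and_eq_true] at h
    obtain ⟨⟨h1, h2⟩, h3⟩ := h
    have e1 : y = x := Nat.eq_of_beq_eq_true h1
    have e2 : lb = 0 := Nat.eq_of_beq_eq_true h2
    have e3 : caps = [] := List.isEmpty_iff.1 h3
    subst e1 e2 e3
    have e : ev m (Prog.asg y 0 [] q) v b n1 n2 f =
        loop (fun k => ev m q (v + k * 32 ^ y) (b - k) n1 n2 f) 0 (b + 1 - 0) := rfl
    rw [e, loop_eq]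
    simp only [Nat.zero_add, Nat.sub_zero, tl]
  | nil => simp [hd0] at h
  | site _ _ _ _ => simp [hd0] at h
  | low _ _ _ _ => simp [hd0] at h
  | upp _ _ _ _ => simp [hd0] at h
  | skp _ _ _ _ => simp [hd0] at h

/-- the values of the pieces `k ∈ [u, w)` of a split evaluation -/
noncomputable def pcs (m : ℕ) (q : Prog) (x b u : ℕ) (c : List ℤ) : Bool :=
  (List.range c.length).all fun k =>
    decide (ev m q ((u + k) * 32 ^ x) (b - (u + k)) 0 0 0 = c.getD k 0)

end Pool.Agent.GaussPoset.Win.Ev
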